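import Pool.Agent.Q103.FS.Iso

/-!
# The last step to the frozen statement
-/

set_option autoImplicit false

namespace Pool.Agent.Q103.FS

open Pool.Agent.W277.UH
open Pool.Agent.Y706.BI Pool.Agent.Y31.BI
open Polynomial

universe u v w

/-- a finitely generated field which is algebraic over a subfield is finite over it -/
lemma finite_of_fg {k : Type v} {K : Type u} [Field k] [Field K] [Algebra k K]
    (hfg : (⊤ : IntermediateField k K).FG) (x : K)
    (halg : Algebra.IsAlgebraic (IntermediateField.adjoin k {x}) K) :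
    FiniteDimensional (IntermediateField.adjoin k {x}) K := by
  obtain ⟨s, hs⟩ := hfg
  have h1 : IntermediateField.adjoin (IntermediateField.adjoin k {x}) (s : Set K) = ⊤ := by
    rw [eq_top_iff]
    intro y _
    have h2 : (⊤ : IntermediateField k K) ≤
        (IntermediateField.adjoin (IntermediateField.adjoin k {x}) (s : Set K)).restrictScalars
          k := by
      rw [← hs, IntermediateField.adjoin_le_iff]
      intro z hz
      exact IntermediateField.subset_adjoin _ _ hz
    exact h2 trivial
  have h3 : FiniteDimensional (IntermediateField.adjoin k {x})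
      (IntermediateField.adjoin (IntermediateField.adjoin k {x}) (s : Set K)) := by
    apply IntermediateField.finiteDimensional_adjoin
    intro y _
    exact Algebra.IsIntegral.isIntegral y
  rw [h1] at h3
  exact LinearEquiv.finiteDimensional (IntermediateField.topEquiv (F := IntermediateField.adjoin k {x})
    (E := K)).toLinearEquiv

/-- **the last step**, for fields of one characteristic -/
theorem frozen_of_orbB {c : ℕ} (hB : OrbB.{u} c) :
  ∀ (k : Type v) (K : Type u) [Field k] [CharP k c] [Field K] [Algebra k K],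
    (⊤ : IntermediateField k K).FG →
    (∃ x : K, Transcendental k x ∧
      Algebra.IsAlgebraic (IntermediateField.adjoin k {x}) K) →
    ∀ d : ℕ, 2 ≤ d → ∀ D : ℕ, 1 ≤ D → ∃ B : ℕ,
    ∀ (F G : MvPolynomial (Fin 2) (AlgebraicClosure K)),
      F.IsHomogeneous d → G.IsHomogeneous d →
      (∀ v : Fin 2 → AlgebraicClosure K,
        MvPolynomial.eval v F = 0 → MvPolynomial.eval v G = 0 → v = 0) →
      (¬ ∃ (A : Matrix (Fin 2) (Fin 2) (AlgebraicClosure K))
          (F' G' : MvPolynomial (Fin 2) (AlgebraicClosure K)),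
          A.det ≠ 0 ∧ F'.IsHomogeneous d ∧ G'.IsHomogeneous d ∧
          (∀ m, IsAlgebraic k (F'.coeff m) ∧ IsAlgebraic k (G'.coeff m)) ∧
          ∀ v : Fin 2 → AlgebraicClosure K, v ≠ 0 →
            ∃ c : AlgebraicClosure K, c ≠ 0 ∧
              ![MvPolynomial.eval (A.mulVec v) F, MvPolynomial.eval (A.mulVec v) G] =
                c • A.mulVec ![MvPolynomial.eval v F', MvPolynomial.eval v G']) →
      ∀ L : IntermediateField K (AlgebraicClosure K),
        FiniteDimensional K L → Module.finrank K L ≤ D →
        (∀ m, F.coeff m ∈ L ∧ G.coeff m ∈ L) →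
        {p : Projectivization (AlgebraicClosure K) (Fin 2 → AlgebraicClosure K) |
            (∃ m n : ℕ, m < n ∧ ∃ c : AlgebraicClosure K, c ≠ 0 ∧
              (fun v : Fin 2 → AlgebraicClosure K =>
                  ![MvPolynomial.eval v F, MvPolynomial.eval v G])^[n] p.rep =
                c • (fun v : Fin 2 → AlgebraicClosure K =>
                  ![MvPolynomial.eval v F, MvPolynomial.eval v G])^[m] p.rep) ∧
            ∃ L' : IntermediateField K (AlgebraicClosure K),
              FiniteDimensional K L' ∧ Module.finrank K L' ≤ D ∧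
              ∃ c : AlgebraicClosure K, c ≠ 0 ∧ ∀ i, c * p.rep i ∈ L'}.encard ≤ B := by
  intro k K _ _ _ _ hfg ⟨t, ht, halg⟩ d hd D hD
  have hfd := finite_of_fg hfg t halg
  obtain ⟨N, hN⟩ := bdg.{u, v} hB (Module.finrank (IntermediateField.adjoin k {t}) K) D d hd
  refine ⟨N, ?_⟩
  intro F G hF hG hnz hiso L hLfd hLD hFG
  have hd0 : d ≠ 0 := by omega
  have hinf : Infinite (AlgebraicClosure K) := inferInstance
  have hco := deh_coprime hF hG hnz
  have hmax := deh_max hd0 hF hG hnz
  have hnoiso : ¬ IsoAlg k (deh d F) (deh d G) d := by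
    intro h
    exact hiso (iso_frozen (by omega) hF hG hco hmax h)
  have hcoef : ∀ (H : MvPolynomial (Fin 2) (AlgebraicClosure K)), (∀ m, H.coeff m ∈ L) →
      ∀ m, (deh d H).coeff m ∈ L := by
    intro H hH m
    rw [deh_coeff]
    split_ifs
    · exact hH _
    · exact L.zero_mem
  have hmain := hN k K t ht hfd le_rfl L hLfd hLD (deh d F) (deh d G)
    (hcoef F fun m => (hFG m).1) (hcoef G fun m => (hFG m).2) hco hmax hnoiso
  refine le_trans ?_ hmain
  set S := {p : Projectivization (AlgebraicClosure K) (Fin 2 → AlgebraicClosure K) |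
            (∃ m n : ℕ, m < n ∧ ∃ c : AlgebraicClosure K, c ≠ 0 ∧
              (fun v : Fin 2 → AlgebraicClosure K =>
                  ![MvPolynomial.eval v F, MvPolynomial.eval v G])^[n] p.rep =
                c • (fun v : Fin 2 → AlgebraicClosure K =>
                  ![MvPolynomial.eval v F, MvPolynomial.eval v G])^[m] p.rep) ∧
            ∃ L' : IntermediateField K (AlgebraicClosure K),
              FiniteDimensional K L' ∧ Module.finrank K L' ≤ D ∧
              ∃ c : AlgebraicClosure K, c ≠ 0 ∧ ∀ i, c * p.rep i ∈ L'} with hS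
  have hinj : Set.InjOn (fun p : Projectivization (AlgebraicClosure K)
      (Fin 2 → AlgebraicClosure K) => cl p.rep) S := by
    intro p _ q _ h
    obtain ⟨a, ha⟩ := cl_inj p.rep q.rep p.rep_nonzero q.rep_nonzero h
    rw [← p.mk_rep, ← q.mk_rep, Projectivization.mk_eq_mk_iff']
    exact ⟨a, ha⟩
  rw [← hinj.encard_image]
  apply Set.encard_le_encard
  rintro _ ⟨p, ⟨⟨m, n, hmn, c, hc, hcy⟩, L', hL'fd, hL'D, c', hc', hL'⟩, rfl⟩
  have hrep := p.rep_nonzero
  refine ⟨?_, ?_⟩
  · obtain ⟨h1, h2⟩ := cl_iter hF hG hnz p.rep hrep n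
    obtain ⟨h3, h4⟩ := cl_iter hF hG hnz p.rep hrep m
    have h5 : (fm F G)^[n] p.rep = c • (fm F G)^[m] p.rep := hcy
    have h6 : (ratP1 (deh d F) (deh d G) d)^[n] (cl p.rep) =
        (ratP1 (deh d F) (deh d G) d)^[m] (cl p.rep) := by
      rw [← h2, ← h4, h5, cl_smul c hc]
    show (Set.range fun i : ℕ => (ratP1 (deh d F) (deh d G) d)^[i] (cl p.rep)).Finite
    have h7 : ∀ i, ∃ j < n, (ratP1 (deh d F) (deh d G) d)^[i] (cl p.rep) =
        (ratP1 (deh d F) (deh d G) d)^[j] (cl p.rep) := by
      intro i
      induction i using Nat.strong_induction_on with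
      | _ i ih =>
        by_cases hi : i < n
        · exact ⟨i, hi, rfl⟩
        · obtain ⟨j, hj, hij⟩ := ih (i - n + m) (by omega)
          refine ⟨j, hj, ?_⟩
          rw [← hij]
          have e1 : i = (i - n) + n := by omega
          conv_lhs => rw [e1, Function.iterate_add_apply, h6, ← Function.iterate_add_apply]
    refine ((Finset.range n).finite_toSet.image fun j : ℕ =>
      (ratP1 (deh d F) (deh d G) d)^[j] (cl p.rep)).subset ?_
    rintro _ ⟨i, rfl⟩
    obtain ⟨j, hj, h⟩ := h7 i
    exact ⟨j, by simpa using hj, h.symm⟩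
  · intro x hx
    refine ⟨L', hL'fd, hL'D, ?_⟩
    have h1 : cl p.rep = some x := hx
    unfold cl at h1
    by_cases h2 : p.rep 1 = 0
    · rw [h2, pt_zero] at h1
      simp at h1
    · rw [pt_ne h2] at h1
      have h3 := Option.some.inj h1
      rw [← h3, ← mul_div_mul_left _ _ hc']
      exact L'.div_mem (hL' 0) (hL' 1)

end Pool.Agent.Q103.FS
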