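import Pool.Agent.Q177.SU.Glob
import Pool.Agent.Q128.SU.NumCore
import Pool.Agent.Q144.SU.Clu
import Pool.Agent.Q144.SU.Crc
import Pool.Agent.Q144.SU.Der
import Pool.Agent.Q144.SU.Desc
import Pool.Agent.Q144.SU.Exp
import Pool.Agent.Q144.SU.It
import Pool.Agent.Q153.SU.CountT
import Pool.Agent.Q153.SU.Inv
import Pool.Agent.Q153.SU.Ric
import Pool.Agent.Q162.SU.T8
import Pool.Agent.Q198.SU.Amb
import Pool.Agent.Q198.SU.Num
import Pool.Agent.Q210.SU.N10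
import Pool.Agent.Q210.SU.N11
import Pool.Agent.Q210.SU.N4
import Pool.Agent.Q210.SU.N7
import Pool.Agent.Q210.SU.N8
import Pool.Agent.Q210.SU.N9
import Pool.Agent.Q24.SU.Dig
import Pool.Agent.Q24.SU.Pair
import Pool.Agent.Q24.SU.Pb
import Pool.Agent.Q24.SU.Pl
import Pool.Agent.Q24.SU.Ratp
import Pool.Agent.Q24.SU.Red
import Pool.Agent.Q24.SU.Ten
import Pool.Agent.Q241.SU.L4
import Pool.Agent.Q275.SU.Pl1
import Pool.Agent.Q275.SU.Pl2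
import Pool.Agent.Q41.SU.LV
import Pool.Agent.Q58.SU.Cent
import Pool.Agent.Q58.SU.Resc
import Pool.Agent.Q58.SU.Tay
import Pool.Agent.Q65.SU.Covn
import Pool.Agent.Q65.SU.Cov
import Pool.Agent.Q65.SU.Phi
import Pool.Agent.Q65.SU.Small
import Pool.Agent.Q103.FS.Fin

/-!
# The core theorem in characteristic zero, without hypotheses
-/

set_option autoImplicit false

namespace Pool.Agent.Q103.FS

open Pool.Agent.Q41.SU

universe u v

theorem t_mi : S_mi.{u} :=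
  Pool.Agent.Q162.SU.mi Pool.Agent.Q65.SU.npol.{u}
    (Pool.Agent.Q24.SU.t_ten Pool.Agent.Q144.SU.desc.{u})
    Pool.Agent.Q65.SU.s_ev.{u} Pool.Agent.Q153.SU.count.{u}
    (Pool.Agent.Q24.SU.t_pair
      (Pool.Agent.Q24.SU.t_plw (Pool.Agent.Q144.SU.clw Pool.Agent.Q144.SU.exp.{u}))
      (Pool.Agent.Q24.SU.t_pli (Pool.Agent.Q144.SU.cli Pool.Agent.Q144.SU.exp.{u}))
      (Pool.Agent.Q24.SU.t_plv (Pool.Agent.Q144.SU.cli Pool.Agent.Q144.SU.exp.{u}))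
      (Pool.Agent.Q65.SU.covn Pool.Agent.Q65.SU.cov.{u}))
    Pool.Agent.Q275.SU.prod_formula.{u} Pool.Agent.Q65.SU.lsq

theorem t_nd0 : S_nd.{u} :=
  Pool.Agent.Q210.SU.N8.t_nd Pool.Agent.Q144.SU.it.{u}
    (Pool.Agent.Q24.SU.t_pb Pool.Agent.Q144.SU.it.{u})
    (Pool.Agent.Q210.SU.N4.t_algr Pool.Agent.Q144.SU.it.{u})
    Pool.Agent.Q153.SU.inv.{u} Pool.Agent.Q153.SU.ric.{u}
    (Pool.Agent.Q210.SU.N7.n7 Pool.Agent.Q144.SU.it.{u})

theorem t_sel : S_sel.{u} :=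
  Pool.Agent.Q210.SU.N11.n11 (Pool.Agent.Q210.SU.N10.n10 t_nd0.{u} Pool.Agent.Q210.SU.N9.n9.{u})

/-- the core theorem in characteristic zero -/
theorem core0 : S_core.{u} :=
  Pool.Agent.Q177.SU.core Pool.Agent.Q198.SU.amb.{u} Pool.Agent.Q275.SU.emb.{u}
    Pool.Agent.Q275.SU.pl.{u} Pool.Agent.Q275.SU.fin.{u} Pool.Agent.Q275.SU.coord.{u}
    Pool.Agent.Q144.SU.der.{u} Pool.Agent.Q58.SU.s_tay.{u} t_mi.{u}
    (Pool.Agent.Q241.SU.t_L4 Pool.Agent.Q41.SU.lv.{u} Pool.Agent.Q58.SU.s_resc.{u}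
      Pool.Agent.Q58.SU.s_e2)
    Pool.Agent.Q24.SU.t_red.{u} t_sel.{u}
    (Pool.Agent.Q177.SU.glob Pool.Agent.Q177.SU.af.{u} Pool.Agent.Q275.SU.prod_formula.{u})
    (Pool.Agent.Q177.SU.ni Pool.Agent.Q275.SU.const.{u})
    (Pool.Agent.Q128.SU.numcore Pool.Agent.Q198.SU.num Pool.Agent.Q65.SU.s_phi
      Pool.Agent.Q65.SU.lsq)

theorem orbB_zero : OrbB.{u} 0 := by
  intro n d hd
  obtain ⟨B, hB⟩ := core0.{u} d n hd
  refine ⟨B, ?_⟩
  intro k E _ _ _ _ _ t G _ hG hcard p q hp hq hco P hP _ hiso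
  have : CharZero k := CharP.charP_to_charZero k
  exact hB k E t G hG hcard p q hp hq hco P hP hiso

end Pool.Agent.Q103.FS
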