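import Pool.Agent.Q103.FS.Red
import Pool.Agent.Y31.BI.Bdg

/-!
# Points of bounded degree, all characteristics
-/

set_option autoImplicit false

namespace Pool.Agent.Q103.FS

open Pool.Agent.Q41.SU Pool.Agent.W277.UB Pool.Agent.W277.UG Pool.Agent.W277.UH
open Pool.Agent.Y706.BI Pool.Agent.Y31.BI
open Finset Polynomial

universe u v w

/-- conjugate to a map with constant coefficients -/
lemma isoAlg_of_conjConst {k : Type v} {L : Type u} [Field k] [Field L] [Algebra k L]
    {p q : L[X]} {d : ℕ} (h : ConjConst (algebraicClosure k L) p q d) : IsoAlg k p q d := by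
  obtain ⟨a, b, c, e, hdet, u, w, hne, hu, hw, hid⟩ := h
  have hinj := (algebraMap (algebraicClosure k L) L).injective
  refine ⟨a, b, c, e, hdet, u.map (algebraMap _ L), w.map (algebraMap _ L), ?_,
    natDegree_map_le.trans hu, natDegree_map_le.trans hw, fun n => ?_, fun n => ?_, ?_⟩
  · rcases hne with h | h
    · exact Or.inl ((Polynomial.map_ne_zero_iff hinj).mpr h)
    · exact Or.inr ((Polynomial.map_ne_zero_iff hinj).mpr h)
  · rw [coeff_map]
    exact mem_algebraicClosure_iff.mp (u.coeff n).2
  · rw [coeff_map]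
    exact mem_algebraicClosure_iff.mp (w.coeff n).2
  · unfold Pool.Agent.W277.UH.hc hev at hid
    simpa using hid

/-- the union of boundedly many bounded sets -/
lemma union_bound {A : Type*} (M c : ℕ) (G : ℕ → Set A) (hG : ∀ a ∈ Finset.range (M + 1),
    (G a).encard ≤ (c : ℕ∞)) : (⋃ a ∈ Finset.range (M + 1), G a).encard ≤
      (((M + 1) * c : ℕ) : ℕ∞) := by
  classical
  have h1 : ∀ s : Finset ℕ, (∀ a ∈ s, (G a).encard ≤ (c : ℕ∞)) →
      (⋃ a ∈ s, G a).encard ≤ ((s.card * c : ℕ) : ℕ∞) := by
    intro s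
    induction s using Finset.induction_on with
    | empty => intro _; simp
    | insert x s hx ih =>
      intro hs
      rw [Finset.set_biUnion_insert, Finset.card_insert_of_notMem hx, add_mul, one_mul]
      refine (Set.encard_union_le _ _).trans ?_
      rw [add_comm]
      push_cast
      gcongr
      · exact_mod_cast ih fun a ha => hs a (Finset.mem_insert_of_mem ha)
      · exact hs x (Finset.mem_insert_self _ _)
  have h2 := h1 (Finset.range (M + 1)) hG
  rwa [Finset.card_range] at h2

/-- **points of bounded degree** -/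
theorem bdg {c : ℕ} (hB : OrbB.{u} c) : ∀ n D d : ℕ, 2 ≤ d → ∃ N : ℕ,
    ∀ (k : Type v) (K : Type u) [Field k] [CharP k c] [Field K] [Algebra k K] (t : K),
    Transcendental k t → FiniteDimensional (IntermediateField.adjoin k {t}) K →
    Module.finrank (IntermediateField.adjoin k {t}) K ≤ n →
    ∀ (L : IntermediateField K (AlgebraicClosure K)), FiniteDimensional K L →
    Module.finrank K L ≤ D → ∀ P Q : (AlgebraicClosure K)[X], (∀ m, P.coeff m ∈ L) →
    (∀ m, Q.coeff m ∈ L) → IsCoprime P Q → max P.natDegree Q.natDegree = d →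
    ¬ IsoAlg k P Q d →
    {z : Option (AlgebraicClosure K) |
      (Set.range fun m : ℕ => (ratP1 P Q d)^[m] z).Finite ∧
      ∀ x, z = some x → ∃ E : IntermediateField K (AlgebraicClosure K), FiniteDimensional K E ∧
        Module.finrank K E ≤ D ∧ x ∈ E}.encard ≤ ((N : ℕ) : ℕ∞) := by
  classical
  intro n D d hd
  obtain ⟨M, hM⟩ := orb_len.{u, v} hB (n * (D * (D + 1))) d hd
  refine ⟨(M + 1) * ((M + 1) * (2 * d ^ M + 1)), ?_⟩
  intro k K _ _ _ _ t ht hfd hn L hLfd hLD P Q hPL hQL hPQ hmax hiso
  set F := AlgebraicClosure K with hF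
  have hPd : P.natDegree ≤ d := (le_max_left _ _).trans hmax.le
  have hQd : Q.natDegree ≤ d := (le_max_right _ _).trans hmax.le
  have htop : P.coeff d ≠ 0 ∨ Q.coeff d ≠ 0 := by
    have key : ∀ g : F[X], g.natDegree = d → g.coeff d ≠ 0 := by
      intro g hg
      rw [← hg, coeff_natDegree, Ne, leadingCoeff_eq_zero]
      rintro rfl
      rw [natDegree_zero] at hg
      omega
    rcases le_total P.natDegree Q.natDegree with h | h
    · right
      exact key Q ((max_eq_right h).symm.trans hmax)
    · left
      exact key P ((max_eq_left h).symm.trans hmax)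
  have hmain : ∀ z : Option F, (Set.range fun m : ℕ => (ratP1 P Q d)^[m] z).Finite →
      (∀ x, z = some x → ∃ E : IntermediateField K F, FiniteDimensional K E ∧
        Module.finrank K E ≤ D ∧ x ∈ E) →
      ∃ a b : ℕ, b < a ∧ a ≤ M ∧ (ratP1 P Q d)^[a] z = (ratP1 P Q d)^[b] z := by
    intro z hz1 hz2
    obtain ⟨E₀, hE1, hE2, hE3⟩ : ∃ E₀ : IntermediateField K F, FiniteDimensional K E₀ ∧
        Module.finrank K E₀ ≤ D + 1 ∧ ∀ x, z = some x → x ∈ E₀ := by
      cases z with
      | none =>
        refine ⟨⊥, inferInstance, ?_, fun x hx => by simp at hx⟩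
        rw [IntermediateField.finrank_bot]
        omega
      | some x =>
        obtain ⟨E, h1, h2, h3⟩ := hz2 x rfl
        refine ⟨E, h1, by omega, fun y hy => ?_⟩
        rw [← Option.some.inj hy]
        exact h3
    set E : IntermediateField K F := L ⊔ E₀ with hE
    have hLE : L ≤ E := le_sup_left
    have hE0E : E₀ ≤ E := le_sup_right
    have hEfd : FiniteDimensional K E := IntermediateField.finiteDimensional_sup L E₀
    have hEfr : Module.finrank K E ≤ D * (D + 1) :=
      (IntermediateField.finrank_sup_le L E₀).trans (Nat.mul_le_mul hLD hE2)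
    obtain ⟨y, hy⟩ : ∃ y : Option E, y.map (algebraMap E F) = z := by
      cases z with
      | none => exact ⟨none, rfl⟩
      | some x => exact ⟨some ⟨x, hE0E (hE3 x rfl)⟩, rfl⟩
    obtain ⟨hT1, hT2⟩ := tower (k := k) t E
    have hkEF : IsScalarTower k E F := IsScalarTower.of_algebraMap_eq fun x => rfl
    have ht' : Transcendental k (algebraMap K E t) :=
      (transcendental_algebraMap_iff (algebraMap K E).injective).2 ht
    obtain ⟨p, hp⟩ : ∃ p : E[X], p.map (algebraMap E F) = P := by
      have : P ∈ lifts (algebraMap E F) := by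
        rw [lifts_iff_coeff_lifts]
        exact fun m => ⟨⟨P.coeff m, hLE (hPL m)⟩, rfl⟩
      exact (mem_lifts P).mp this
    obtain ⟨q, hq⟩ : ∃ q : E[X], q.map (algebraMap E F) = Q := by
      have : Q ∈ lifts (algebraMap E F) := by
        rw [lifts_iff_coeff_lifts]
        exact fun m => ⟨⟨Q.coeff m, hLE (hQL m)⟩, rfl⟩
      exact (mem_lifts Q).mp this
    have hco : IsCoprime p q := by
      rw [← Polynomial.isCoprime_map (algebraMap E F), hp, hq]
      exact hPQ
    have hmaxE : max p.natDegree q.natDegree = d := by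
      rw [← hmax, ← hp, ← hq, natDegree_map, natDegree_map]
    have hnc : ¬ ConjConst (algebraicClosure k E) p q d := by
      intro h
      apply hiso
      have h1 := isoAlg_map (IsScalarTower.toAlgHom k E F) (isoAlg_of_conjConst h)
      have h2 : ((IsScalarTower.toAlgHom k E F : E →ₐ[k] F) : E →+* F) = algebraMap E F := rfl
      rw [h2, hp, hq] at h1
      exact h1
    have hyfin : (Set.range fun m : ℕ => (ratP1 p q d)^[m] y).Finite := by
      apply pre_map (algebraMap E F)
      rw [hp, hq, hy]
      exact hz1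
    have hB := hM k E (algebraMap K E t) ht' hT1 (by
        rw [hT2]
        exact Nat.mul_le_mul hn hEfr) p q hco hmaxE hnc y hyfin
    obtain ⟨a, b, hab, ha, h⟩ := pigeon (ratP1 p q d) y
      (Set.range fun m : ℕ => (ratP1 p q d)^[m] y) M (by
        rw [hyfin.encard_eq_coe_toFinset_card]
        exact_mod_cast hB) (fun m => ⟨m, rfl⟩)
    refine ⟨a, b, hab, ha, ?_⟩
    have h1 := congrArg (Option.map (algebraMap E F)) h
    rw [← ratP1_iter_map, ← ratP1_iter_map, hp, hq, hy] at h1
    exact h1
  have hcov : {z : Option F | (Set.range fun m : ℕ => (ratP1 P Q d)^[m] z).Finite ∧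
      ∀ x, z = some x → ∃ E : IntermediateField K F, FiniteDimensional K E ∧
        Module.finrank K E ≤ D ∧ x ∈ E} ⊆ ⋃ a ∈ Finset.range (M + 1), ⋃ b ∈ Finset.range (M + 1),
          {z : Option F | b < a ∧ (ratP1 P Q d)^[a] z = (ratP1 P Q d)^[b] z} := by
    rintro z ⟨hz1, hz2⟩
    obtain ⟨a, b, hab, ha, h⟩ := hmain z hz1 hz2
    simp only [Set.mem_iUnion, Finset.mem_range]
    exact ⟨a, by omega, b, by omega, hab, h⟩
  have hone : ∀ a ∈ Finset.range (M + 1), ∀ b ∈ Finset.range (M + 1),
      {z : Option F | b < a ∧ (ratP1 P Q d)^[a] z = (ratP1 P Q d)^[b] z}.encard ≤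
        ((2 * d ^ M + 1 : ℕ) : ℕ∞) := by
    intro a ha b _
    rw [Finset.mem_range] at ha
    by_cases hab : b < a
    · refine (Set.encard_le_encard ?_).trans ((coin hd hPd hQd hPQ htop hab).trans ?_)
      · exact fun z hz => hz.2
      · have h1 : 2 * d ^ a + 1 ≤ 2 * d ^ M + 1 := by
          have := Nat.pow_le_pow_right (show 0 < d by omega) (show a ≤ M by omega)
          omega
        exact_mod_cast h1
    · have h1 : {z : Option F | b < a ∧ (ratP1 P Q d)^[a] z = (ratP1 P Q d)^[b] z} = ∅ := by
        ext z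
        simp [hab]
      rw [h1, Set.encard_empty]
      exact bot_le
  refine (Set.encard_le_encard hcov).trans
    (union_bound _ _ _ fun a ha => union_bound _ _ _ fun b hb => ?_)
  exact hone a ha b hb

end Pool.Agent.Q103.FS
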