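import Pool.Agent.Q41.SU.Stm6

/-!
# The Galois closure over the algebraic closure of the constants, all characteristics
-/

set_option autoImplicit false
set_option linter.unusedSectionVars false

namespace Pool.Agent.Q103.FS

open Finset Polynomial Pool.Agent.Q41.SU

universe u v

/-- the number of automorphisms of a splitting field -/
theorem card_aut_le {F : Type u} {Ω : Type u} [Field F] [Field Ω] [Algebra F Ω] (f : F[X])
    (hsp : (f.map (algebraMap F Ω)).Splits) (E : Type u) [Field E] [Algebra F E]
    [f.IsSplittingField F E] [Finite (E ≃ₐ[F] E)] :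
    Nat.card (E ≃ₐ[F] E) ≤ f.natDegree.factorial := by
  classical
  have : Fact ((f.map (algebraMap F Ω)).Splits) := ⟨hsp⟩
  have e : (E ≃ₐ[F] E) ≃* f.Gal := AlgEquiv.autCongr (IsSplittingField.algEquiv E f)
  rw [Nat.card_congr e.toEquiv]
  have h1 := Polynomial.Gal.galActionHom_injective f Ω
  have h2 := Nat.card_le_card_of_injective _ h1
  refine h2.trans ?_
  rw [Nat.card_perm]
  refine Nat.factorial_le ?_
  have h3 := Polynomial.ncard_rootSet_le f Ω
  rwa [← Nat.card_coe_set_eq] at h3

/-- **The Galois closure over the algebraic closure of the constants, all characteristics.** The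
extension `L / k(t)` may be inseparable. -/
theorem extP : ∀ (k : Type v) (L : Type u) [Field k] [Field L] [Algebra k L] (t : L),
    Transcendental k t → FiniteDimensional (IntermediateField.adjoin k {t}) L → ∀ n : ℕ,
    Module.finrank (IntermediateField.adjoin k {t}) L ≤ n →
    ∃ (k' E : Type u) (_ : Field k') (_ : IsAlgClosed k') (_ : Field E)
      (_ : Algebra k' E) (j : L →+* E) (t' : E) (G : Subgroup (E ≃ₐ[k'] E)) (_ : Fintype G),
      IsGal k' t' G ∧ Fintype.card G ≤ n.factorial ∧
      Nonempty (k →+* k') ∧
      ∀ x : L, (∃ c : k', algebraMap k' E c = j x) → IsAlgebraic k x := by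
  intro k L _ _ _ t ht hfd n hn
  classical
  let Ω : Type u := AlgebraicClosure L
  let k' : IntermediateField k Ω := algebraicClosure k Ω
  let tΩ : Ω := algebraMap L Ω t
  have hac : IsAlgClosed k' := IsAlgClosure.isAlgClosed k
  let K₀ : IntermediateField k L := IntermediateField.adjoin k {t}
  let K₁ : IntermediateField k' Ω := IntermediateField.adjoin k' {tΩ}
  have hK₀ : ∀ x : K₀, algebraMap L Ω (x : L) ∈ K₁ := by
    intro x
    have h1 : K₀ ≤ (K₁.restrictScalars k).comap (IsScalarTower.toAlgHom k L Ω) := by
      refine IntermediateField.adjoin_le_iff.2 ?_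
      rintro _ rfl
      exact IntermediateField.subset_adjoin k' {tΩ} rfl
    exact h1 x.2
  let φ : K₀ →+* K₁ := ((algebraMap L Ω).comp (algebraMap K₀ L)).codRestrict K₁ hK₀
  let Ls : IntermediateField K₀ L := separableClosure K₀ L
  have hpi : IsPurelyInseparable Ls L := inferInstance
  have hLsfd : FiniteDimensional Ls L := inferInstance
  have hexp : IsPurelyInseparable.HasExponent Ls L := inferInstance
  obtain ⟨l, hl⟩ := ExpChar.exists Ls
  let Fr : L →+* Ls := IsPurelyInseparable.iterateFrobenius Ls L l
    (le_refl (IsPurelyInseparable.exponent Ls L))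
  have hFr : ∀ x : L, ((Fr x : Ls) : L) = x ^ l ^ IsPurelyInseparable.exponent Ls L := fun x =>
    IsPurelyInseparable.algebraMap_iterateFrobenius Ls l le_rfl x
  obtain ⟨θ, hθ⟩ := Field.exists_primitive_element K₀ Ls
  let f : K₀[X] := minpoly K₀ θ
  have hθint : IsIntegral K₀ θ := Algebra.IsIntegral.isIntegral θ
  have hfsep : f.Separable := Algebra.IsSeparable.isSeparable K₀ θ
  have hfdeg : f.natDegree ≤ n := by
    have h1 : f.natDegree = Module.finrank K₀ (IntermediateField.adjoin K₀ {θ}) :=
      (IntermediateField.adjoin.finrank hθint).symm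
    rw [h1, hθ, IntermediateField.finrank_top']
    refine le_trans ?_ hn
    rw [← Module.finrank_mul_finrank K₀ Ls L]
    exact Nat.le_mul_of_pos_right _ Module.finrank_pos
  let f₁ : K₁[X] := f.map φ
  have hf₁sep : f₁.Separable := hfsep.map
  have hf₁0 : f₁ ≠ 0 := hf₁sep.ne_zero
  have hf₁deg : f₁.natDegree ≤ n := (natDegree_map_le).trans hfdeg
  have hsp : (f₁.map (algebraMap K₁ Ω)).Splits := IsAlgClosed.splits _
  let E : IntermediateField K₁ Ω := IntermediateField.adjoin K₁ (f₁.rootSet Ω)
  have hE : f₁.IsSplittingField K₁ E := IntermediateField.adjoin_rootSet_isSplittingField hsp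
  have hfdE : FiniteDimensional K₁ E := IsSplittingField.finiteDimensional E f₁
  have hgal : IsGalois K₁ E := IsGalois.of_separable_splitting_field hf₁sep
  have hjE : ∀ x : Ls, algebraMap L Ω (x : L) ∈ E := by
    intro x
    let T : IntermediateField K₀ Ls :=
      (E.toSubfield.comap ((algebraMap L Ω).comp (algebraMap Ls L))).toIntermediateField
      (fun y => by
        show algebraMap L Ω (y : L) ∈ E
        exact E.algebraMap_mem (⟨_, hK₀ y⟩ : K₁))
    have h1 : (⊤ : IntermediateField K₀ Ls) ≤ T := by
      rw [← hθ]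
      refine IntermediateField.adjoin_le_iff.2 ?_
      intro y hy
      rw [show y = θ from hy]
      show algebraMap L Ω (θ : L) ∈ E
      refine IntermediateField.subset_adjoin K₁ _ ?_
      rw [mem_rootSet]
      refine ⟨hf₁0, ?_⟩
      have h2 : (algebraMap K₁ Ω).comp φ = (algebraMap L Ω).comp (algebraMap K₀ L) := rfl
      rw [aeval_def, eval₂_map, h2, ← hom_eval₂]
      have h3 : eval₂ (algebraMap K₀ L) (θ : L) f = 0 := by
        have h4 : aeval (algebraMap Ls L θ) f = 0 := by
          rw [aeval_algebraMap_apply, minpoly.aeval, map_zero]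
        exact h4
      rw [h3, map_zero]
    exact h1 (IntermediateField.mem_top (x := x))
  let j₀ : Ls →+* E := ((algebraMap L Ω).comp (algebraMap Ls L)).codRestrict E hjE
  let j : L →+* E := j₀.comp Fr
  let t₁ : K₁ := ⟨tΩ, IntermediateField.subset_adjoin k' {tΩ} rfl⟩
  let t' : E := algebraMap K₁ E t₁
  let G : Subgroup (E ≃ₐ[k'] E) :=
    { carrier := {g | g t' = t'}
      mul_mem' := fun {a b} ha hb => by
        show a (b t') = t'
        rw [show b t' = t' from hb, show a t' = t' from ha]
      one_mem' := rfl
      inv_mem' := fun {a} ha => by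
        show a.symm t' = t'
        rw [AlgEquiv.symm_apply_eq]
        exact (show a t' = t' from ha).symm }
  have hGfix : ∀ g ∈ G, ∀ y : K₁, g (algebraMap K₁ E y) = algebraMap K₁ E y := by
    intro g hg y
    have h1 : (g : E →ₐ[k'] E).comp (IsScalarTower.toAlgHom k' K₁ E) =
        IsScalarTower.toAlgHom k' K₁ E := by
      refine IntermediateField.adjoin_algHom_ext k' ?_
      rintro x hx
      have hx' : x = tΩ := hx
      subst hx'
      exact hg
    exact congrArg (fun h => h y) h1
  let toK : G → (E ≃ₐ[K₁] E) := fun g => AlgEquiv.ofRingEquiv (f := (g : E ≃ₐ[k'] E).toRingEquiv)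
    (fun y => hGfix g g.2 y)
  have htow : IsScalarTower k' E Ω := IsScalarTower.of_algebraMap_eq fun c => rfl
  have hmap : ∀ p : k'[X], ((aeval t' p : E) : Ω) = aeval tΩ p := by
    intro p
    have := (Polynomial.aeval_algHom_apply (IsScalarTower.toAlgHom k' E Ω) t' p)
    exact this.symm
  have htoK : Function.Injective toK := by
    intro g g' h
    apply Subtype.ext
    ext x
    exact congrArg (fun σ : E ≃ₐ[K₁] E => ((σ x : E) : Ω)) h
  have hfin : Finite G := Finite.of_injective toK htoK
  have hft : Fintype G := Fintype.ofFinite G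
  refine ⟨k', E, inferInstance, hac, inferInstance, inferInstance, j, t', G, hft, ?_, ?_, ?_, ?_⟩
  · refine ⟨?_, fun g hg => hg, ?_⟩
    · intro halg
      apply ht
      have h1 : IsAlgebraic k' tΩ := by
        obtain ⟨p, hp, hp0⟩ := halg
        exact ⟨p, hp, by rw [← hmap, hp0]; rfl⟩
      have h2 : IsAlgebraic k tΩ := h1.restrictScalars k
      exact (isAlgebraic_algebraMap_iff (algebraMap L Ω).injective).1 h2
    · intro x hx
      have h1 : x ∈ (⊥ : IntermediateField K₁ E) := by
        rw [IsGalois.mem_bot_iff_fixed]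
        intro σ
        exact hx (σ.restrictScalars k') (by
          show σ t' = t'
          exact σ.commutes t₁)
      obtain ⟨y, hy⟩ := IntermediateField.mem_bot.1 h1
      obtain ⟨r, s, hrs⟩ := (IntermediateField.mem_adjoin_simple_iff k' (y : Ω)).1 y.2
      have hxy : (x : Ω) = aeval tΩ r / aeval tΩ s := by
        rw [← hrs, ← hy]
        rfl
      by_cases hs : s = 0
      · refine ⟨0, 1, one_ne_zero, ?_⟩
        apply Subtype.ext
        rw [hxy, hs]
        simp
      · refine ⟨r, s, hs, ?_⟩
        apply Subtype.ext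
        rw [hxy]
        show _ = ((aeval t' r / aeval t' s : E) : Ω)
        rw [← hmap, ← hmap]
        rfl
  · have h1 := Nat.card_le_card_of_injective toK htoK
    have h2 := card_aut_le f₁ hsp E
    rw [← Nat.card_eq_fintype_card]
    exact h1.trans (h2.trans (Nat.factorial_le hf₁deg))
  · exact ⟨algebraMap k k'⟩
  · rintro x ⟨c, hc⟩
    have h1 : (c : Ω) = algebraMap L Ω (x ^ l ^ IsPurelyInseparable.exponent Ls L) := by
      rw [← hFr]
      exact congrArg (fun z : E => (z : Ω)) hc
    have h2 : IsAlgebraic k (c : Ω) := mem_algebraicClosure_iff.1 c.2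
    rw [h1] at h2
    have h3 := (isAlgebraic_algebraMap_iff (algebraMap L Ω).injective).1 h2
    exact IsAlgebraic.of_pow (pow_pos (expChar_pos Ls l) _) h3

end Pool.Agent.Q103.FS
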