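import Pool.Agent.Q103.FS.Bdg

/-!
# Binary forms
-/

set_option autoImplicit false

namespace Pool.Agent.Q103.FS

open Pool.Agent.W277.UH
open Pool.Agent.Y706.BI Pool.Agent.Y31.BI
open Polynomial

universe u v w

variable {K : Type u} [Field K]

/-- the exponent `(i, d - i)` -/
noncomputable def ee (d i : ℕ) : Fin 2 →₀ ℕ := Finsupp.single 0 i + Finsupp.single 1 (d - i)

lemma ee_zero (d i : ℕ) : ee d i 0 = i := by simp [ee]

lemma ee_one (d i : ℕ) : ee d i 1 = d - i := by simp [ee]

lemma ee_inj (d i j : ℕ) (h : ee d i = ee d j) : i = j := by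
  rw [← ee_zero d i, h, ee_zero]

/-- the dehomogenisation -/
noncomputable def deh (d : ℕ) (F : MvPolynomial (Fin 2) K) : K[X] :=
  ∑ i ∈ Finset.range (d + 1), monomial i (F.coeff (ee d i))

/-- the homogenisation -/
noncomputable def hom (d : ℕ) (u : K[X]) : MvPolynomial (Fin 2) K :=
  ∑ i ∈ Finset.range (d + 1), MvPolynomial.monomial (ee d i) (u.coeff i)

lemma deh_coeff (d : ℕ) (F : MvPolynomial (Fin 2) K) (i : ℕ) :
    (deh d F).coeff i = if i ≤ d then F.coeff (ee d i) else 0 := by
  unfold deh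
  rw [finsetSum_coeff]
  simp only [coeff_monomial]
  rw [Finset.sum_ite_eq']
  simp only [Finset.mem_range, Nat.lt_succ_iff]

lemma deh_natDegree (d : ℕ) (F : MvPolynomial (Fin 2) K) : (deh d F).natDegree ≤ d := by
  rw [natDegree_le_iff_coeff_eq_zero]
  intro i hi
  rw [deh_coeff, if_neg (by omega)]

lemma ee_degree (d i : ℕ) (h : i ≤ d) : (ee d i).degree = d := by
  rw [Finsupp.degree_eq_sum, Fin.sum_univ_two, ee_zero, ee_one]
  omega

lemma ee_of_degree (d : ℕ) (m : Fin 2 →₀ ℕ) (h : m.degree = d) : m = ee d (m 0) ∧ m 0 ≤ d := by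
  rw [Finsupp.degree_eq_sum, Fin.sum_univ_two] at h
  refine ⟨?_, by omega⟩
  ext i
  fin_cases i
  · exact (ee_zero d (m 0)).symm
  · show m 1 = ee d (m 0) 1
    rw [ee_one]
    omega

lemma hom_coeff (d : ℕ) (u : K[X]) (m : Fin 2 →₀ ℕ) :
    (hom d u).coeff m = if m.degree = d then u.coeff (m 0) else 0 := by
  classical
  unfold hom
  rw [MvPolynomial.coeff_sum]
  simp only [MvPolynomial.coeff_monomial]
  by_cases h : m.degree = d
  · obtain ⟨h1, h2⟩ := ee_of_degree d m h
    rw [if_pos h, Finset.sum_eq_single (m 0)]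
    · rw [if_pos h1.symm]
    · intro i _ hi
      rw [if_neg]
      intro h3
      apply hi
      rw [← h3, ee_zero]
    · intro h3
      exact absurd (Finset.mem_range.mpr (by omega)) h3
  · rw [if_neg h]
    apply Finset.sum_eq_zero
    intro i hi
    rw [Finset.mem_range] at hi
    rw [if_neg]
    intro h3
    apply h
    rw [← h3, ee_degree d i (by omega)]

lemma hom_deh (d : ℕ) (F : MvPolynomial (Fin 2) K) (hF : F.IsHomogeneous d) :
    hom d (deh d F) = F := by
  ext m
  rw [hom_coeff]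
  by_cases h : m.degree = d
  · obtain ⟨h1, h2⟩ := ee_of_degree d m h
    rw [if_pos h, deh_coeff, if_pos h2, ← h1]
  · rw [if_neg h]
    exact (hF.coeff_eq_zero h).symm

lemma hom_isHomogeneous (d : ℕ) (u : K[X]) : (hom d u).IsHomogeneous d := by
  intro m hm
  rw [hom_coeff] at hm
  by_contra h
  apply hm
  rw [if_neg]
  intro h2
  apply h
  rw [Finsupp.weight_apply]
  simpa [Finsupp.degree_eq_sum, Finsupp.sum_fintype] using h2

lemma hom_eval (d : ℕ) (u : K[X]) (v : Fin 2 → K) :
    MvPolynomial.eval v (hom d u) = hev d u (v 0, v 1) := by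
  unfold hom hev
  rw [map_sum]
  apply Finset.sum_congr rfl
  intro i _
  rw [MvPolynomial.eval_monomial, Finsupp.prod_fintype _ _ (fun i => pow_zero _),
    Fin.prod_univ_two, ee_zero, ee_one]
  ring

lemma form_eval (d : ℕ) (F : MvPolynomial (Fin 2) K) (hF : F.IsHomogeneous d) (v : Fin 2 → K) :
    MvPolynomial.eval v F = hev d (deh d F) (v 0, v 1) := by
  rw [← hom_eval, hom_deh d F hF]

/-- the class of a vector in the projective line -/
noncomputable def cl (v : Fin 2 → K) : Option K := pt (v 0) (v 1)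

/-- the map of vectors -/
noncomputable def fm (F G : MvPolynomial (Fin 2) K) : (Fin 2 → K) → (Fin 2 → K) :=
  fun v => ![MvPolynomial.eval v F, MvPolynomial.eval v G]

section

variable {d : ℕ} {F G : MvPolynomial (Fin 2) K}

lemma deh_top (hd : d ≠ 0) (hF : F.IsHomogeneous d) (hG : G.IsHomogeneous d)
    (h : ∀ v : Fin 2 → K, MvPolynomial.eval v F = 0 → MvPolynomial.eval v G = 0 → v = 0) :
    (deh d F).coeff d ≠ 0 ∨ (deh d G).coeff d ≠ 0 := by
  by_contra hcon
  push Not at hcon
  have h1 : (![1, 0] : Fin 2 → K) = 0 := by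
    apply h
    · rw [form_eval d F hF]
      show hev d (deh d F) (1, 0) = 0
      rw [hev_zero, hcon.1, zero_mul]
    · rw [form_eval d G hG]
      show hev d (deh d G) (1, 0) = 0
      rw [hev_zero, hcon.2, zero_mul]
  have := congrFun h1 0
  simp at this

lemma deh_coprime [IsAlgClosed K] (hF : F.IsHomogeneous d) (hG : G.IsHomogeneous d)
    (h : ∀ v : Fin 2 → K, MvPolynomial.eval v F = 0 → MvPolynomial.eval v G = 0 → v = 0) :
    IsCoprime (deh d F) (deh d G) := by
  refine (isCoprime_iff_aeval_ne_zero_of_isAlgClosed (k := K) K _ _).mpr ?_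
  intro x
  by_contra hcon
  push Not at hcon
  obtain ⟨h1, h2⟩ := hcon
  rw [coe_aeval_eq_eval] at h1 h2
  have h3 : (![x, 1] : Fin 2 → K) = 0 := by
    apply h
    · rw [form_eval d F hF]
      show hev d (deh d F) (x, 1) = 0
      rw [hev_one d _ (deh_natDegree d F), h1]
    · rw [form_eval d G hG]
      show hev d (deh d G) (x, 1) = 0
      rw [hev_one d _ (deh_natDegree d G), h2]
  have := congrFun h3 1
  simp at this

lemma deh_max (hd : d ≠ 0) (hF : F.IsHomogeneous d) (hG : G.IsHomogeneous d)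
    (h : ∀ v : Fin 2 → K, MvPolynomial.eval v F = 0 → MvPolynomial.eval v G = 0 → v = 0) :
    max (deh d F).natDegree (deh d G).natDegree = d := by
  apply le_antisymm (max_le (deh_natDegree d F) (deh_natDegree d G))
  rcases deh_top hd hF hG h with h1 | h1
  · exact (le_natDegree_of_ne_zero h1).trans (le_max_left _ _)
  · exact (le_natDegree_of_ne_zero h1).trans (le_max_right _ _)

lemma fm_ne (h : ∀ v : Fin 2 → K, MvPolynomial.eval v F = 0 → MvPolynomial.eval v G = 0 → v = 0)
    (v : Fin 2 → K) (hv : v ≠ 0) : fm F G v ≠ 0 := by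
  intro h1
  apply hv
  exact h v (by simpa [fm] using congrFun h1 0) (by simpa [fm] using congrFun h1 1)

lemma cl_fm (hF : F.IsHomogeneous d) (hG : G.IsHomogeneous d) (v : Fin 2 → K) (hv : v ≠ 0) :
    cl (fm F G v) = ratP1 (deh d F) (deh d G) d (cl v) := by
  unfold cl
  rw [ratP1_pt (deh_natDegree d F) (deh_natDegree d G)]
  · simp only [fm, Matrix.cons_val_zero, Matrix.cons_val_one]
    rw [form_eval d F hF, form_eval d G hG]
  · intro h1 h0
    apply hv
    ext i
    fin_cases i
    · exact h0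
    · exact h1

lemma cl_iter (hF : F.IsHomogeneous d) (hG : G.IsHomogeneous d)
    (h : ∀ v : Fin 2 → K, MvPolynomial.eval v F = 0 → MvPolynomial.eval v G = 0 → v = 0)
    (v : Fin 2 → K) (hv : v ≠ 0) (n : ℕ) :
    (fm F G)^[n] v ≠ 0 ∧ cl ((fm F G)^[n] v) = (ratP1 (deh d F) (deh d G) d)^[n] (cl v) := by
  induction n with
  | zero => exact ⟨hv, rfl⟩
  | succ n ih =>
    rw [Function.iterate_succ_apply', Function.iterate_succ_apply']
    exact ⟨fm_ne h _ ih.1, by rw [cl_fm hF hG _ ih.1, ih.2]⟩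

lemma cl_smul (c : K) (hc : c ≠ 0) (v : Fin 2 → K) : cl (c • v) = cl v := by
  unfold cl
  simp only [Pi.smul_apply, smul_eq_mul]
  by_cases h : v 1 = 0
  · rw [h, mul_zero, pt_zero, pt_zero]
  · rw [pt_ne h, pt_ne (mul_ne_zero hc h), mul_div_mul_left _ _ hc]

lemma cl_inj (v w : Fin 2 → K) (hv : v ≠ 0) (hw : w ≠ 0) (h : cl v = cl w) :
    ∃ a : K, a • w = v := by
  unfold cl at h
  have h1 := pt_eq h
  by_cases hw1 : w 1 = 0
  · have hw0 : w 0 ≠ 0 := by
      intro h0
      apply hw
      ext i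
      fin_cases i
      · exact h0
      · exact hw1
    have hv1 : v 1 = 0 := by
      rw [hw1, mul_zero, zero_sub, neg_eq_zero] at h1
      exact (mul_eq_zero.mp h1).resolve_right hw0
    refine ⟨v 0 / w 0, ?_⟩
    ext i
    fin_cases i
    · show v 0 / w 0 * w 0 = v 0
      field_simp
    · show v 0 / w 0 * w 1 = v 1
      rw [hw1, hv1, mul_zero]
  · refine ⟨v 1 / w 1, ?_⟩
    ext i
    fin_cases i
    · show v 1 / w 1 * w 0 = v 0
      rw [div_mul_eq_mul_div, div_eq_iff hw1]
      linear_combination -h1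
    · show v 1 / w 1 * w 1 = v 1
      field_simp

end

end Pool.Agent.Q103.FS
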