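import Pool.Agent.Q103.FS.Frm

/-!
# Isotrivial maps given by forms
-/

set_option autoImplicit false

namespace Pool.Agent.Q103.FS

open Pool.Agent.W277.UH
open Pool.Agent.Y706.BI Pool.Agent.Y31.BI
open Polynomial

universe u v w

variable {K : Type u} [Field K]

/-- substitution of a linear map into a form -/
lemma hev_lin (d : ℕ) (u : K[X]) (a b c e : K) (Z : K × K) :
    hev d (hc d u (C a * X + C b) (C c * X + C e)) Z =
      hev d u (a * Z.1 + b * Z.2, c * Z.1 + e * Z.2) := by
  have hdeg : (hc d u (C a * X + C b) (C c * X + C e)).natDegree ≤ d := by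
    have := hc_degree d 1 u _ _ (lin_deg a b) (lin_deg c e)
    rwa [mul_one] at this
  by_cases hZ : Z.2 = 0
  · have e0 : Z = (Z.1, 0) := Prod.ext rfl hZ
    have h := hc_coeff d 1 u _ _ (lin_deg a b) (lin_deg c e)
    rw [mul_one] at h
    have e1 : (C a * X + C b : K[X]).coeff 1 = a := by simp [coeff_C]
    have e2 : (C c * X + C e : K[X]).coeff 1 = c := by simp [coeff_C]
    rw [e1, e2] at h
    rw [e0, hev_zero, h, mul_comm, ← hev_smul]
    congr 1
    ext
    · simp only [Prod.smul_fst, smul_eq_mul, mul_zero, add_zero]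
      ring
    · simp only [Prod.smul_snd, smul_eq_mul, mul_zero, add_zero]
      ring
  · rw [hev_eval d _ hdeg Z hZ, hc_eval, ← hev_smul]
    congr 1
    ext
    · simp only [Prod.smul_fst, smul_eq_mul, eval_add, eval_mul, eval_C, eval_X]
      field_simp
    · simp only [Prod.smul_snd, smul_eq_mul, eval_add, eval_mul, eval_C, eval_X]
      field_simp

/-- a form which vanishes everywhere -/
lemma eq_zero_of_hev [Infinite K] (d : ℕ) (u : K[X]) (hu : u.natDegree ≤ d)
    (h : ∀ Z : K × K, hev d u Z = 0) : u = 0 := by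
  apply Polynomial.funext
  intro x
  rw [eval_zero, ← hev_one d u hu x]
  exact h _

lemma hev_comb (d : ℕ) (a b : K) (p q : K[X]) (Z : K × K) :
    hev d (C a * p + C b * q) Z = a * hev d p Z + b * hev d q Z := by
  unfold hev
  rw [Finset.mul_sum, Finset.mul_sum, ← Finset.sum_add_distrib]
  apply Finset.sum_congr rfl
  intro i _
  rw [coeff_add, coeff_C_mul, coeff_C_mul]
  ring

/-- the identity of isotriviality for forms -/
lemma iso_forms {k : Type v} [Field k] [Algebra k K] [Infinite K] {d : ℕ} (hd : 1 ≤ d)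
    {p q : K[X]} (hco : IsCoprime p q) (hmax : max p.natDegree q.natDegree = d)
    (h : IsoAlg k p q d) : ∃ a b c e : K, a * e - b * c ≠ 0 ∧ ∃ u w : K[X],
      (∀ n, IsAlgebraic k (u.coeff n)) ∧ (∀ n, IsAlgebraic k (w.coeff n)) ∧
      ∃ t : K, t ≠ 0 ∧ ∀ Z : K × K,
        hev d u (a * Z.1 + b * Z.2, c * Z.1 + e * Z.2) = t * (a * hev d p Z + b * hev d q Z) ∧
        hev d w (a * Z.1 + b * Z.2, c * Z.1 + e * Z.2) = t * (c * hev d p Z + e * hev d q Z) := by
  obtain ⟨a, b, c, e, hdet, u, w, hne, hu, hw, hua, hwa, hid⟩ := h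
  refine ⟨a, b, c, e, hdet, u, w, hua, hwa, ?_⟩
  set P1 := C a * p + C b * q with hP1
  set P2 := C c * p + C e * q with hP2
  set U1 := hc d u (C a * X + C b) (C c * X + C e) with hU1
  set W1 := hc d w (C a * X + C b) (C c * X + C e) with hW1
  have hcu : ∀ g : K[X], ∑ i ∈ Finset.range (d + 1),
      C (g.coeff i) * (C a * X + C b) ^ i * (C c * X + C e) ^ (d - i) =
        hc d g (C a * X + C b) (C c * X + C e) := by
    intro g
    unfold hc hev
    apply Finset.sum_congr rfl
    intro i _
    rw [coeff_map]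
  rw [hcu, hcu, ← hU1, ← hW1] at hid
  have hCdet : C (a * e - b * c) ≠ (0 : K[X]) := by
    rw [Ne, C_eq_zero]; exact hdet
  have hp : C (a * e - b * c) * p = C e * P1 - C b * P2 := by
    rw [hP1, hP2]; simp only [C_sub, C_mul]; ring
  have hq : C (a * e - b * c) * q = C a * P2 - C c * P1 := by
    rw [hP1, hP2]; simp only [C_sub, C_mul]; ring
  have hcoP : IsCoprime P1 P2 := by
    obtain ⟨r, s, hrs⟩ := hco
    have h1 : (r * C e - s * C c) * P1 + (s * C a - r * C b) * P2 = C (a * e - b * c) := by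
      have : C (a * e - b * c) * (r * p + s * q) = C (a * e - b * c) := by rw [hrs, mul_one]
      rw [← this]
      linear_combination -r * hp - s * hq
    refine ⟨C (a * e - b * c)⁻¹ * (r * C e - s * C c), C (a * e - b * c)⁻¹ * (s * C a - r * C b), ?_⟩
    rw [mul_assoc, mul_assoc, ← mul_add, h1, ← C_mul, inv_mul_cancel₀ hdet, C_1]
  have hmaxP : d ≤ max P1.natDegree P2.natDegree := by
    rw [← hmax]
    have key : ∀ g : K[X], (∃ x y : K, C (a * e - b * c) * g = C x * P1 - C y * P2) →
        g.natDegree ≤ max P1.natDegree P2.natDegree := by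
      rintro g ⟨x, y, hg⟩
      rw [← natDegree_C_mul (a := a * e - b * c) hdet, hg]
      refine (natDegree_sub_le _ _).trans (max_le_max (natDegree_C_mul_le _ _)
        (natDegree_C_mul_le _ _))
    refine max_le (key p ⟨e, b, hp⟩) (key q ⟨-c, -a, ?_⟩)
    rw [hq, C_neg, C_neg]
    ring
  have hU1d : U1.natDegree ≤ d := by
    have := hc_degree d 1 u _ _ (lin_deg a b) (lin_deg c e)
    rwa [mul_one] at this
  have hW1d : W1.natDegree ≤ d := by
    have := hc_degree d 1 w _ _ (lin_deg a b) (lin_deg c e)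
    rwa [mul_one] at this
  have hP10 : P1 ≠ 0 := by
    intro h0
    rw [h0] at hcoP hmaxP hp hq
    have h1 : IsUnit P2 := isCoprime_zero_left.mp hcoP
    have h2 := natDegree_eq_zero_of_isUnit h1
    rw [h2, natDegree_zero, max_self] at hmaxP
    omega
  obtain ⟨g, hg⟩ : P1 ∣ U1 := by
    apply hcoP.dvd_of_dvd_mul_left
    rw [← hid]
    exact dvd_mul_right _ _
  have hg2 : W1 = P2 * g := by
    apply mul_left_cancel₀ hP10
    rw [hid, hg]
    ring
  have hg0 : g ≠ 0 := by
    intro h0
    rw [h0, mul_zero] at hg hg2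
    have key : ∀ r : K[X], r.natDegree ≤ d → hc d r (C a * X + C b) (C c * X + C e) = 0 →
        r = 0 := by
      intro r hr h
      apply eq_zero_of_hev d r hr
      intro Z
      have h1 := hev_lin d r a b c e ((e * Z.1 - b * Z.2) / (a * e - b * c),
        (a * Z.2 - c * Z.1) / (a * e - b * c))
      rw [h] at h1
      have h2 : a * ((e * Z.1 - b * Z.2) / (a * e - b * c)) +
          b * ((a * Z.2 - c * Z.1) / (a * e - b * c)) = Z.1 := by
        rw [← mul_div_assoc, ← mul_div_assoc, ← add_div, div_eq_iff hdet]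
        ring
      have h3 : c * ((e * Z.1 - b * Z.2) / (a * e - b * c)) +
          e * ((a * Z.2 - c * Z.1) / (a * e - b * c)) = Z.2 := by
        rw [← mul_div_assoc, ← mul_div_assoc, ← add_div, div_eq_iff hdet]
        ring
      simp only at h1
      rw [h2, h3] at h1
      rw [← h1]
      simp [hev]
    rcases hne with h | h
    · exact h (key u hu hg)
    · exact h (key w hw hg2)
  have hgd : g.natDegree = 0 := by
    rcases le_total P1.natDegree P2.natDegree with h | h
    · rw [max_eq_right h] at hmaxP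
      have hP20 : P2 ≠ 0 := by
        rintro h0
        rw [h0, natDegree_zero] at hmaxP
        omega
      rw [hg2, natDegree_mul hP20 hg0] at hW1d
      omega
    · rw [max_eq_left h] at hmaxP
      rw [hg, natDegree_mul hP10 hg0] at hU1d
      omega
  obtain ⟨t, ht⟩ : ∃ t, g = C t := ⟨_, eq_C_of_natDegree_eq_zero hgd⟩
  have ht0 : t ≠ 0 := by
    rintro rfl
    exact hg0 (by rw [ht, C_0])
  refine ⟨t, ht0, fun Z => ⟨?_, ?_⟩⟩
  · rw [← hev_lin, ← hU1, hg, ht, mul_comm P1, hP1, mul_add, ← mul_assoc, ← mul_assoc, ← C_mul,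
      ← C_mul, hev_comb]
    ring
  · rw [← hev_lin, ← hW1, hg2, ht, mul_comm P2, hP2, mul_add, ← mul_assoc, ← mul_assoc, ← C_mul,
      ← C_mul, hev_comb]
    ring

/-- isotriviality in the form of the frozen statement -/
theorem iso_frozen {k : Type v} [Field k] [Algebra k K] [Infinite K] {d : ℕ} (hd : 1 ≤ d)
    {F G : MvPolynomial (Fin 2) K} (hF : F.IsHomogeneous d) (hG : G.IsHomogeneous d)
    (hco : IsCoprime (deh d F) (deh d G)) (hmax : max (deh d F).natDegree (deh d G).natDegree = d)
    (h : IsoAlg k (deh d F) (deh d G) d) :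
    ∃ (A : Matrix (Fin 2) (Fin 2) K) (F' G' : MvPolynomial (Fin 2) K),
      A.det ≠ 0 ∧ F'.IsHomogeneous d ∧ G'.IsHomogeneous d ∧
      (∀ m, IsAlgebraic k (F'.coeff m) ∧ IsAlgebraic k (G'.coeff m)) ∧
      ∀ v : Fin 2 → K, v ≠ 0 → ∃ c : K, c ≠ 0 ∧
        ![MvPolynomial.eval (A.mulVec v) F, MvPolynomial.eval (A.mulVec v) G] =
          c • A.mulVec ![MvPolynomial.eval v F', MvPolynomial.eval v G'] := by
  obtain ⟨a, b, c, e, hdet, u, w, hua, hwa, t, ht, hid⟩ := iso_forms hd hco hmax h
  refine ⟨!![e / (a * e - b * c), -b / (a * e - b * c); -c / (a * e - b * c),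
    a / (a * e - b * c)], hom d u, hom d w, ?_, hom_isHomogeneous d u, hom_isHomogeneous d w,
    ?_, ?_⟩
  · rw [Matrix.det_fin_two_of]
    have : e / (a * e - b * c) * (a / (a * e - b * c)) -
        -b / (a * e - b * c) * (-c / (a * e - b * c)) = 1 / (a * e - b * c) := by
      field_simp
    rw [this]
    exact one_div_ne_zero hdet
  · intro m
    rw [hom_coeff, hom_coeff]
    split_ifs
    · exact ⟨hua _, hwa _⟩
    · exact ⟨isAlgebraic_zero, isAlgebraic_zero⟩
  · intro v _
    refine ⟨t⁻¹, inv_ne_zero ht, ?_⟩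
    set x := (e * v 0 - b * v 1) / (a * e - b * c) with hx
    set y := (a * v 1 - c * v 0) / (a * e - b * c) with hy
    have hAv : (!![e / (a * e - b * c), -b / (a * e - b * c); -c / (a * e - b * c),
        a / (a * e - b * c)] : Matrix (Fin 2) (Fin 2) K).mulVec v = ![x, y] := by
      ext i
      fin_cases i
      · simp [Matrix.mulVec, dotProduct, Fin.sum_univ_two, hx]
        ring
      · simp [Matrix.mulVec, dotProduct, Fin.sum_univ_two, hy]
        ring
    obtain ⟨h1, h2⟩ := hid (x, y)
    have h3 : a * x + b * y = v 0 := by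
      rw [hx, hy, ← mul_div_assoc, ← mul_div_assoc, ← add_div, div_eq_iff hdet]
      ring
    have h4 : c * x + e * y = v 1 := by
      rw [hx, hy, ← mul_div_assoc, ← mul_div_assoc, ← add_div, div_eq_iff hdet]
      ring
    simp only at h1 h2
    rw [h3, h4] at h1 h2
    rw [hAv, form_eval d F hF, form_eval d G hG, hom_eval, hom_eval, h1, h2]
    simp only [Matrix.cons_val_zero, Matrix.cons_val_one]
    ext i
    fin_cases i
    · simp [Matrix.mulVec, dotProduct, Fin.sum_univ_two]
      field_simp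
      ring
    · simp [Matrix.mulVec, dotProduct, Fin.sum_univ_two]
      field_simp
      ring

end Pool.Agent.Q103.FS
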