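import Pool.Agent.Q103.FS.Core0
import Pool.Agent.Q41.SP.Stm6

/-!
# The frozen statement from the bound for orbits in positive characteristic
-/

set_option autoImplicit false

namespace Pool.Agent.Q103.FS

open Pool.Agent.Q41.SU Pool.Agent.Q41.SP

universe u v

/-- **the frozen statement**, from the bound for orbits in positive characteristic -/
theorem main (horb : S_orbP.{u}) :
  ∀ (k : Type v) (K : Type u) [Field k] [Field K] [Algebra k K],
    (⊤ : IntermediateField k K).FG →
    (∃ x : K, Transcendental k x ∧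
      Algebra.IsAlgebraic (IntermediateField.adjoin k {x}) K) →
    ∀ d : ℕ, 2 ≤ d → ∀ D : ℕ, 1 ≤ D → ∃ B : ℕ,
    ∀ (F G : MvPolynomial (Fin 2) (AlgebraicClosure K)),
      F.IsHomogeneous d → G.IsHomogeneous d →
      (∀ v : Fin 2 → AlgebraicClosure K,
        MvPolynomial.eval v F = 0 → MvPolynomial.eval v G = 0 → v = 0) →
      (¬ ∃ (A : Matrix (Fin 2) (Fin 2) (AlgebraicClosure K))
          (F' G' : MvPolynomial (Fin 2) (AlgebraicClosure K)),
          A.det ≠ 0 ∧ F'.IsHomogeneous d ∧ G'.IsHomogeneous d ∧
          (∀ m, IsAlgebraic k (F'.coeff m) ∧ IsAlgebraic k (G'.coeff m)) ∧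
          ∀ v : Fin 2 → AlgebraicClosure K, v ≠ 0 →
            ∃ c : AlgebraicClosure K, c ≠ 0 ∧
              ![MvPolynomial.eval (A.mulVec v) F, MvPolynomial.eval (A.mulVec v) G] =
                c • A.mulVec ![MvPolynomial.eval v F', MvPolynomial.eval v G']) →
      ∀ L : IntermediateField K (AlgebraicClosure K),
        FiniteDimensional K L → Module.finrank K L ≤ D →
        (∀ m, F.coeff m ∈ L ∧ G.coeff m ∈ L) →
        {p : Projectivization (AlgebraicClosure K) (Fin 2 → AlgebraicClosure K) |
            (∃ m n : ℕ, m < n ∧ ∃ c : AlgebraicClosure K, c ≠ 0 ∧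
              (fun v : Fin 2 → AlgebraicClosure K =>
                  ![MvPolynomial.eval v F, MvPolynomial.eval v G])^[n] p.rep =
                c • (fun v : Fin 2 → AlgebraicClosure K =>
                  ![MvPolynomial.eval v F, MvPolynomial.eval v G])^[m] p.rep) ∧
            ∃ L' : IntermediateField K (AlgebraicClosure K),
              FiniteDimensional K L' ∧ Module.finrank K L' ≤ D ∧
              ∃ c : AlgebraicClosure K, c ≠ 0 ∧ ∀ i, c * p.rep i ∈ L'}.encard ≤ B := by
  intro k K _ _ _ hfg hx d hd D hD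
  obtain ⟨c, hc⟩ := CharP.exists k
  have hB : OrbB.{u} c := by
    rcases CharP.char_is_prime_or_zero k c with h | h
    · intro n d hd
      obtain ⟨B, hB⟩ := horb c n d h hd
      refine ⟨B, ?_⟩
      intro k' E _ _ _ _ _ t G _ hG hcard p q hp hq hco P hP hx hiso
      have : Fact c.Prime := ⟨h⟩
      have : CharP E c := charP_of_injective_algebraMap (algebraMap k' E).injective c
      exact hB k' E t G hG hcard p q hp hq hco P hP hx hiso
    · rw [h]
      exact orbB_zero.{u}
  exact frozen_of_orbB.{u, v} hB k K hfg hx d hd D hD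

end Pool.Agent.Q103.FS
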