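import Pool.Agent.Q103.FS.Tay

/-!
# Taylor homomorphisms in characteristic `l`, Galois extensions of the rational function field
-/

namespace Pool.Agent.Q103.FS

open Polynomial
open Pool.Agent.Q41.SU (IsGal)
open Pool.Agent.Q41.SP (IsHT)

universe u

section

variable {k E : Type u} [Field k] [Field E] [Algebra k E] {t : E}

/-- the embedding of the rational functions -/
noncomputable def phiE (ht : Transcendental k t) : RatFunc k →+* E :=
  IsLocalization.lift (M := nonZeroDivisors k[X]) (g := ((aeval t : k[X] →ₐ[k] E) : k[X] →+* E))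
    (fun y => by
      apply IsUnit.mk0
      intro h
      exact nonZeroDivisors.ne_zero y.2 (transcendental_iff.mp ht _ (by simpa using h)))

lemma phiE_alg (ht : Transcendental k t) (f : k[X]) :
    phiE ht (algebraMap k[X] (RatFunc k) f) = aeval t f := by
  simp [phiE]

/-- the Taylor expansion of rational functions -/
noncomputable def psiE (ht : Transcendental k t) : RatFunc k →+* PowerSeries E :=
  IsLocalization.lift (M := nonZeroDivisors k[X])
    (g := ((aeval (PowerSeries.C t + PowerSeries.X) : k[X] →ₐ[k] PowerSeries E) :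
      k[X] →+* PowerSeries E))
    (fun y => by
      rw [PowerSeries.isUnit_iff_constantCoeff]
      apply IsUnit.mk0
      intro h
      apply nonZeroDivisors.ne_zero y.2
      apply transcendental_iff.mp ht
      rw [RingHom.coe_coe, aeval_def, hom_eval₂] at h
      have e1 : (PowerSeries.constantCoeff (R := E)).comp (algebraMap k (PowerSeries E)) =
          algebraMap k E := by
        refine RingHom.ext fun c => ?_
        rw [RingHom.comp_apply, PowerSeries.algebraMap_apply, PowerSeries.constantCoeff_C]
      have e2 : PowerSeries.constantCoeff (PowerSeries.C t + PowerSeries.X) = t := by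
        simp
      rw [e1, e2] at h
      exact h)

lemma psiE_alg (ht : Transcendental k t) (f : k[X]) :
    psiE ht (algebraMap k[X] (RatFunc k) f) = aeval (PowerSeries.C t + PowerSeries.X) f := by
  simp [psiE]

lemma const_psiE (ht : Transcendental k t) (x : RatFunc k) :
    PowerSeries.constantCoeff (psiE ht x) = phiE ht x := by
  have : (PowerSeries.constantCoeff (R := E)).comp (psiE ht) = phiE ht := by
    apply IsLocalization.ringHom_ext (nonZeroDivisors k[X])
    apply Polynomial.ringHom_ext
    · intro c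
      rw [RingHom.comp_apply, RingHom.comp_apply, RingHom.comp_apply, psiE_alg, phiE_alg, aeval_C,
        aeval_C, PowerSeries.algebraMap_apply, PowerSeries.constantCoeff_C]
    · rw [RingHom.comp_apply, RingHom.comp_apply, RingHom.comp_apply, psiE_alg, phiE_alg, aeval_X,
        aeval_X]
      simp
  exact congrArg (fun h => h x) this

lemma map_psiE (ht : Transcendental k t) (g : E ≃ₐ[k] E) (hg : g t = t) (x : RatFunc k) :
    PowerSeries.map ((g : E →ₐ[k] E) : E →+* E) (psiE ht x) = psiE ht x := by
  have : (PowerSeries.map ((g : E →ₐ[k] E) : E →+* E)).comp (psiE ht) = psiE ht := by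
    apply IsLocalization.ringHom_ext (nonZeroDivisors k[X])
    apply Polynomial.ringHom_ext
    · intro c
      rw [RingHom.comp_apply, RingHom.comp_apply, RingHom.comp_apply, psiE_alg, aeval_C,
        PowerSeries.algebraMap_apply, PowerSeries.map_C]
      simp
    · rw [RingHom.comp_apply, RingHom.comp_apply, RingHom.comp_apply, psiE_alg, aeval_X]
      simp [hg]
  exact congrArg (fun h => h x) this

end

/-- an element which is separable over a subfield containing its `l`-th power -/
lemma mem_of_sep (l : ℕ) {F E : Type*} [Field F] [Field E] [Algebra F E] [Fact l.Prime]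
    [CharP F l] (x : E) (hs : IsSeparable F x) (hx : x ^ l ∈ (algebraMap F E).range) :
    x ∈ (algebraMap F E).range := by
  have h1 : x ∈ separableClosure F E := mem_separableClosure_iff.mpr hs
  have h2 : x ∈ perfectClosure F E := by
    rw [mem_perfectClosure_iff_pow_mem l]
    exact ⟨1, by simpa using hx⟩
  have h3 : x ∈ separableClosure F E ⊓ perfectClosure F E := ⟨h1, h2⟩
  rw [separableClosure_inf_perfectClosure] at h3
  exact IntermediateField.mem_bot.mp h3

/-- **Taylor homomorphisms in characteristic `l`.** -/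
theorem tayP : ∀ (l : ℕ) (k E : Type u) [Field k] [IsAlgClosed k] [Field E] [Algebra k E]
    [Fact l.Prime] [CharP E l] (t : E) (G : Subgroup (E ≃ₐ[k] E)) [Fintype G], IsGal k t G →
    ∃ (τ : E →ₐ[k] PowerSeries E) (D : Derivation k E E), IsHT l τ D ∧ D t = 1 ∧
      τ t = PowerSeries.C t + PowerSeries.X ∧
      (∀ g ∈ G, ∀ y, τ (g y) = PowerSeries.map ((g : E →ₐ[k] E) : E →+* E) (τ y)) ∧
      ∀ g ∈ G, ∀ y, D (g y) = g (D y) := by
  intro l k E _ _ _ _ _ _ t G _ hG
  have ht := hG.trans
  set F₀ : Subfield E := FixedPoints.subfield G E with hF₀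
  have hmem : ∀ x : E, x ∈ F₀ ↔ ∀ g ∈ G, g x = x := by
    intro x
    constructor
    · intro hx g hg
      exact hx ⟨g, hg⟩
    · intro hx g
      exact hx g.1 g.2
  have hphi : ∀ x, phiE ht x ∈ F₀ := by
    intro x
    rw [hmem]
    intro g hg
    have h1 := map_psiE ht g (hG.fix g hg) x
    have h2 := congrArg PowerSeries.constantCoeff h1
    rw [const_psiE, ← PowerSeries.coeff_zero_eq_constantCoeff_apply, PowerSeries.coeff_map,
      PowerSeries.coeff_zero_eq_constantCoeff_apply, const_psiE] at h2
    exact h2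
  set π : RatFunc k →+* F₀ := (phiE ht).codRestrict F₀ hphi with hπ
  have hπv : ∀ x, ((π x : F₀) : E) = phiE ht x := fun x => rfl
  have hπs : Function.Surjective π := by
    rintro ⟨x, hx⟩
    obtain ⟨r, q, hq, hx2⟩ := hG.rat x ((hmem x).mp hx)
    refine ⟨algebraMap k[X] (RatFunc k) r / algebraMap k[X] (RatFunc k) q, ?_⟩
    apply Subtype.ext
    rw [hπv, map_div₀, phiE_alg, phiE_alg]
    exact hx2.symm
  obtain ⟨σ, hσ⟩ := exists_factor π hπs (psiE ht) (by
    intro x hx
    have : x = 0 := by
      have h := congrArg Subtype.val hx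
      rw [hπv] at h
      simpa using h
    rw [this, map_zero])
  obtain ⟨τ₀, hτ₀, hτc⟩ := exists_tau (R := F₀) (E := E) σ (by
    intro r
    obtain ⟨x, rfl⟩ := hπs r
    rw [hσ, const_psiE]
    rfl)
  have hτπ : ∀ x, τ₀ (phiE ht x) = psiE ht x := by
    intro x
    have := hτ₀ (π x)
    rw [hσ] at this
    exact this
  have hτk : ∀ c : k, τ₀ (algebraMap k E c) = algebraMap k (PowerSeries E) c := by
    intro c
    have := hτπ (algebraMap k[X] (RatFunc k) (C c))
    rw [phiE_alg, psiE_alg, aeval_C, aeval_C] at this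
    exact this
  let τ : E →ₐ[k] PowerSeries E := { τ₀ with commutes' := hτk }
  have hττ : ∀ x, τ x = τ₀ x := fun x => rfl
  have hτt : τ t = PowerSeries.C t + PowerSeries.X := by
    have := hτπ (algebraMap k[X] (RatFunc k) X)
    rw [phiE_alg, psiE_alg, aeval_X, aeval_X] at this
    exact this
  let D₀ : E →ₗ[k] E := (PowerSeries.coeff (R := E) 1).restrictScalars k ∘ₗ τ.toLinearMap
  have hD₀ : ∀ x, D₀ x = PowerSeries.coeff 1 (τ x) := fun x => rfl
  have hleib : ∀ x y, D₀ (x * y) = x • D₀ y + y • D₀ x := by
    intro x y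
    have e0 : ∀ z, PowerSeries.coeff 0 (τ z) = z := fun z => by
      rw [PowerSeries.coeff_zero_eq_constantCoeff_apply, hττ, hτc]
    rw [hD₀, hD₀, hD₀, map_mul, PowerSeries.coeff_mul, Finset.Nat.sum_antidiagonal_succ,
      Finset.Nat.antidiagonal_zero, Finset.sum_singleton, zero_add, e0, e0, smul_eq_mul,
      smul_eq_mul]
    ring
  let D : Derivation k E E := Derivation.mk' D₀ hleib
  have hD : ∀ x, D x = PowerSeries.coeff 1 (τ x) := fun x => rfl
  have hDt : D t = 1 := by
    rw [hD, hτt]
    simp
  have heq : ∀ g ∈ G, ∀ y, τ (g y) = PowerSeries.map ((g : E →ₐ[k] E) : E →+* E) (τ y) := by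
    intro g hg y
    refine tau_unique (R := F₀) (τ₀.comp ((g : E →ₐ[k] E) : E →+* E))
      ((PowerSeries.map ((g : E →ₐ[k] E) : E →+* E)).comp τ₀) ?_ ?_ y
    · intro r
      obtain ⟨x, rfl⟩ := hπs r
      have h1 : (algebraMap F₀ E) (π x) = phiE ht x := rfl
      rw [RingHom.comp_apply, RingHom.comp_apply, h1, hτπ, map_psiE ht g (hG.fix g hg)]
      have h2 : ((g : E →ₐ[k] E) : E →+* E) (phiE ht x) = phiE ht x := (hmem _).mp (hphi x) g hg
      rw [h2, hτπ]
    · intro x
      rw [RingHom.comp_apply, RingHom.comp_apply, hτc,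
        ← PowerSeries.coeff_zero_eq_constantCoeff_apply, PowerSeries.coeff_map,
        PowerSeries.coeff_zero_eq_constantCoeff_apply, hτc]
  refine ⟨τ, D, ⟨hτc, fun x => rfl, ?_⟩, hDt, hτt, heq, ?_⟩
  · have hl : l.Prime := Fact.out
    have hB : ∀ x : E, x ∈ (frobenius E l).fieldRange ↔ ∃ y, x = y ^ l := by
      intro x
      rw [RingHom.mem_fieldRange]
      exact ⟨fun ⟨y, hy⟩ => ⟨y, by rw [← hy, frobenius_def]⟩,
        fun ⟨y, hy⟩ => ⟨y, by rw [hy, frobenius_def]⟩⟩
    set B : Subfield E := (frobenius E l).fieldRange with hBdef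
    have htl : t ^ l ∈ B := (hB _).mpr ⟨t, rfl⟩
    have hint : IsIntegral B t := by
      refine ⟨X ^ l - C ⟨t ^ l, htl⟩, monic_X_pow_sub_C _ hl.ne_zero, ?_⟩
      rw [eval₂_sub, eval₂_X_pow, eval₂_C]
      exact sub_self _
    have hkB : ∀ c : k, algebraMap k E c ∈ B := by
      intro c
      obtain ⟨c', hc'⟩ := IsAlgClosed.exists_pow_nat_eq c hl.pos
      rw [hB]
      exact ⟨algebraMap k E c', by rw [← map_pow, hc']⟩
    set T : IntermediateField B E := IntermediateField.adjoin B {t} with hT
    have htT : t ∈ T := IntermediateField.mem_adjoin_simple_self B t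
    have hBT : ∀ b : E, b ∈ B → b ∈ T := fun b hb => T.algebraMap_mem ⟨b, hb⟩
    have hpol : ∀ r : k[X], aeval t r ∈ T := by
      intro r
      induction r using Polynomial.induction_on' with
      | add p q hp hq => rw [map_add]; exact T.add_mem hp hq
      | monomial n c =>
        rw [aeval_monomial]
        exact T.mul_mem (hBT _ (hkB c)) (pow_mem htT n)
    have hF₀T : F₀ ≤ T.toSubfield := by
      intro x hx
      obtain ⟨r, q, hq, hx2⟩ := hG.rat x ((hmem x).mp hx)
      rw [hx2]
      exact T.div_mem (hpol r) (hpol q)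
    have hTtop : ∀ x : E, x ∈ T := by
      intro x
      have hs : IsSeparable F₀ x := Algebra.IsSeparable.isSeparable F₀ x
      let _ : Algebra F₀ T.toSubfield := (Subfield.inclusion hF₀T).toAlgebra
      have : IsScalarTower F₀ T.toSubfield E := IsScalarTower.of_algebraMap_eq' rfl
      have hs2 : IsSeparable T.toSubfield x := hs.tower_top T.toSubfield
      have := mem_of_sep l x hs2 ⟨⟨x ^ l, hBT _ ((hB _).mpr ⟨x, rfl⟩)⟩, rfl⟩
      obtain ⟨y, hy⟩ := this
      rw [← hy]
      exact y.2
    intro x hx
    refine ker_der l D t hDt B hB ?_ x hx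
    intro y
    have hy : y ∈ (IntermediateField.adjoin B {t}).toSubalgebra := hTtop y
    rw [IntermediateField.adjoin_simple_toSubalgebra_of_isAlgebraic hint.isAlgebraic,
      Algebra.adjoin_singleton_eq_range_aeval] at hy
    obtain ⟨g, hg⟩ := hy
    exact ⟨g, hg.symm⟩
  · intro g hg y
    rw [hD, hD, heq g hg, PowerSeries.coeff_map]
    rfl

end Pool.Agent.Q103.FS
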