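import Pool.Agent.Q227.SP.PlP
import Pool.Agent.Q227.SP.ClwP
import Pool.Agent.Q227.SP.PairP
import Pool.Agent.Q174.SP.TenP
import Pool.Agent.Q203.SP.EvP
import Pool.Agent.Q203.SP.CountP
import Pool.Agent.Q84.SP.P7
import Pool.Agent.Q251.SP.NumP
import Pool.Agent.Q84.SP.NC
import Pool.Agent.Q121.SP.LV
import Pool.Agent.Q149.SP.L3
import Pool.Agent.Q229.SP.E2P
import Pool.Agent.Q121.SP.Quad
import Pool.Agent.Q151.SP.WpP
import Pool.Agent.Q98.SP.Pig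
import Pool.Agent.Q151.SP.ItP
import Pool.Agent.Q184.SP.Ins
import Pool.Agent.Q246.SP.Fwd
import Pool.Agent.Q184.SP.Ppi
import Pool.Agent.Q98.SP.Der
import Pool.Agent.Q129.SP.Dsc
import Pool.Agent.Q151.SP.RicP
import Pool.Agent.Q151.SP.Ric2P
import Pool.Agent.Q92.SP.Ps
import Pool.Agent.Q92.SP.Prc
import Pool.Agent.Q92.SP.Cyc
import Pool.Agent.Q53.SP.Lmr
import Pool.Agent.Q92.SP.Reg
import Pool.Agent.Q129.SP.Clo
import Pool.Agent.Q52.SP.Lcy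
import Pool.Agent.Q52.SP.Trf
import Pool.Agent.Q53.SP.Int
import Pool.Agent.Q149.SP.N19
import Pool.Agent.Q53.SP.Nd
import Pool.Agent.Q238.SP.V1
import Pool.Agent.Q246.SP.Intp
import Pool.Agent.Q238.SP.V3
import Pool.Agent.Q129.SP.Rld
import Pool.Agent.Q246.SP.Sg
import Pool.Agent.Q129.SP.Fsk0
import Pool.Agent.Q98.SP.Lev
import Pool.Agent.Q129.SP.Vdm
import Pool.Agent.Q246.SP.Fsk
import Pool.Agent.Q239.SP.V10
import Pool.Agent.Q246.SP.Com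
import Pool.Agent.Q239.SP.X1
import Pool.Agent.Q187.SP.Elm
import Pool.Agent.Q210.SP.Y1
import Pool.Agent.Q210.SP.Y235
import Pool.Agent.Q135.SP.Cap
import Pool.Agent.Q229.SP.Y6
import Pool.Agent.Q229.SP.Y7
import Pool.Agent.Q229.SP.Y8
import Pool.Agent.Q229.SP.Y9
import Pool.Agent.Q111.SP.Y10
import Pool.Agent.Q135.SP.Jump
import Pool.Agent.Q111.SP.Y12
import Pool.Agent.Q68.SP.Sep
import Pool.Agent.Q68.SP.Infs
import Pool.Agent.Q111.SP.Y15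
import Pool.Agent.Q103.FS.Core0
import Pool.Agent.Q103.FS.Tay2

/-!
# The bound for orbits in positive characteristic, without hypotheses
-/

set_option autoImplicit false

namespace Pool.Agent.Q103.FS

open Pool.Agent.Q41.SU Pool.Agent.Q41.SP

universe u v

theorem hsP : S_hsP.{u} := tayP.{u}

theorem p7 : S_miP.{u} :=
  Pool.Agent.Q84.SP.miP Pool.Agent.Q65.SU.npol.{u}
    (Pool.Agent.Q174.SP.t_tenP Pool.Agent.Q144.SU.desc.{u}) Pool.Agent.Q203.SP.evP.{u}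
    Pool.Agent.Q203.SP.countP.{u}
    (Pool.Agent.Q227.SP.pairP (Pool.Agent.Q65.SU.covn Pool.Agent.Q65.SU.cov.{u}))
    Pool.Agent.Q275.SU.prod_formula.{u} Pool.Agent.Q65.SU.lsq

theorem q2 : S_ncP.{u} :=
  Pool.Agent.Q84.SP.ncP Pool.Agent.Q251.SP.numP Pool.Agent.Q65.SU.s_phi Pool.Agent.Q65.SU.lsq

theorem l3 : S_locP.{u} :=
  Pool.Agent.Q149.SP.t_L3 Pool.Agent.Q121.SP.lvP.{u} Pool.Agent.Q58.SU.s_resc.{u}
    Pool.Agent.Q229.SP.s_e2P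

theorem itP : S_itP.{u} := Pool.Agent.Q151.SP.itP.{u}

theorem insP : S_insP.{u} := Q184.SP.t_insP itP.{u}

theorem ppsP : S_ppsP.{u} :=
  Pool.Agent.Q149.SP.t_N19 Pool.Agent.Q92.SP.psP.{u} Pool.Agent.Q92.SP.cycP.{u}
    Pool.Agent.Q53.SP.t_lmrP.{u} Pool.Agent.Q92.SP.Reg.regP.{u}
    Pool.Agent.Q129.SP.Clo.cloP.{u} (Pool.Agent.Q52.SP.lcyP itP.{u})
    Pool.Agent.Q52.SP.trfP.{u} Pool.Agent.Q53.SP.t_intP.{u}

theorem ndP : S_ndP.{u} :=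
  Pool.Agent.Q53.SP.t_ndP Pool.Agent.Q151.SP.wpP.{u} Pool.Agent.Q98.SP.t_pigP itP.{u} insP.{u}
    Pool.Agent.Q246.SP.fwdP.{u} Q184.SP.t_ppiP.{u} ppsP.{u} Pool.Agent.Q98.SP.t_derP.{u}
    Pool.Agent.Q129.SP.dscP.{u}
    (Pool.Agent.Q151.SP.ric2P Pool.Agent.Q98.SP.t_pigP itP.{u} Pool.Agent.Q151.SP.ricP.{u})

theorem levP : S_levP.{u} := Pool.Agent.Q98.SP.t_levP.{u}

theorem ctP : S_ctP.{u} :=
  Pool.Agent.Q239.SP.V10.v10 Pool.Agent.Q92.SP.prcP.{u} itP.{u} levP.{u}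

theorem comP : S_comP.{u} :=
  Pool.Agent.Q246.SP.comP
    (Pool.Agent.Q246.SP.fskP
      (Pool.Agent.Q129.SP.Fsk0.fsk0P ndP.{u} Pool.Agent.Q238.SP.frmP.{u}
        Pool.Agent.Q98.SP.t_pigP itP.{u} Pool.Agent.Q246.SP.intpP.{u}
        (Pool.Agent.Q246.SP.segP itP.{u}) Pool.Agent.Q238.SP.dnP.{u}
        Pool.Agent.Q129.SP.Rld.rldP.{u})
      (Pool.Agent.Q129.SP.Vdm.vdmP levP.{u}))
    Pool.Agent.Q98.SP.t_pigP itP.{u} Pool.Agent.Q246.SP.intpP.{u} ctP.{u}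

theorem elmP : S_elmP.{u} := Pool.Agent.Q187.SP.elm Pool.Agent.Q239.SP.X1.x1.{u}

theorem mtP : S_mtP.{u} := Pool.Agent.Q187.SP.mt elmP.{u} comP.{u}

theorem capP : S_capP.{u} :=
  Pool.Agent.Q135.SP.capP hsP.{u} l3.{u} q2.{u} p7.{u} Pool.Agent.Q121.SP.quad
    Pool.Agent.Q198.SU.amb.{u} Pool.Agent.Q275.SU.emb.{u}
    Pool.Agent.Q275.SU.pl.{u} Pool.Agent.Q275.SU.fin.{u} Pool.Agent.Q275.SU.coord.{u}
    (Pool.Agent.Q177.SU.glob Pool.Agent.Q177.SU.af.{u} Pool.Agent.Q275.SU.prod_formula.{u})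
    (Pool.Agent.Q177.SU.ni Pool.Agent.Q275.SU.const.{u})

theorem dichP : S_dichP.{u} :=
  Pool.Agent.Q210.SP.Y235.y5 (Pool.Agent.Q210.SP.Y235.y2 mtP.{u}) capP.{u}

theorem selTP : S_selTP.{u} :=
  Pool.Agent.Q210.SP.Y235.y3 (Pool.Agent.Q210.SP.Y1.y1 levP.{u}) elmP.{u}

theorem ovP : S_ovP.{u} := Pool.Agent.Q229.SP.s_ovP.{u}

theorem sepP : S_sepP.{u} :=
  Pool.Agent.Q68.SP.sepP hsP.{u} dichP.{u} ovP.{u} Pool.Agent.Q135.SP.jumpP.{u}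
    (Pool.Agent.Q111.SP.y12 ctP.{u})

theorem infsP : S_infsP.{u} :=
  Pool.Agent.Q68.SP.infsP dichP.{u} ovP.{u} Pool.Agent.Q135.SP.jumpP.{u} insP.{u} selTP.{u}
    capP.{u}

/-- **the bound for orbits in positive characteristic** -/
theorem orbP : S_orbP.{u} :=
  Pool.Agent.Q111.SP.y15
    (Pool.Agent.Q111.SP.y10 Pool.Agent.Q229.SP.s_infP.{u} Pool.Agent.Q229.SP.s_rtP.{u}
      Pool.Agent.Q229.SP.s_normP.{u} itP.{u})
    Pool.Agent.Q229.SP.s_normP.{u} ovP.{u} sepP.{u} infsP.{u}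

end Pool.Agent.Q103.FS
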