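import Pool.Agent.Q144.SU.B1
import Pool.Agent.Q144.SU.Crc
import Pool.Agent.Q103.FS.Ext

/-!
# The bound for orbits over function fields, all characteristics
-/

set_option autoImplicit false

namespace Pool.Agent.Q103.FS

open Pool.Agent.Q41.SU Pool.Agent.W277.UB Pool.Agent.W277.UG Pool.Agent.W277.UH
open Pool.Agent.Y706.BI (IsoAlg)
open Finset Polynomial

universe u v w

/-- moving infinity out of a stable set -/
theorem stable_reduce2 {k : Type v} {K : Type u} [Field k] [Field K] [Infinite K] [Algebra k K]
    (d : ℕ) (hd : 2 ≤ d)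
    (p q : Polynomial K) (hmax : max p.natDegree q.natDegree = d) (hco : IsCoprime p q)
    (P : Finset (Option K)) (hP : ∀ z ∈ P, ratP1 p q d z ∈ P) :
    ∃ (p' q' : Polynomial K) (φ : Option K → K), p'.natDegree ≤ d ∧ q'.natDegree = d ∧
      IsCoprime p' q' ∧ Set.InjOn φ (P : Set (Option K)) ∧
      (∀ z ∈ P, q'.eval (φ z) ≠ 0 ∧ p'.eval (φ z) / q'.eval (φ z) = φ (ratP1 p q d z)) ∧
      (ConjConst k p' q' d → ConjConst k p q d) := by
  classical
  have hp : p.natDegree ≤ d := by rw [← hmax]; exact le_max_left _ _
  have hq : q.natDegree ≤ d := by rw [← hmax]; exact le_max_right _ _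
  have hlead : p.coeff d ≠ 0 ∨ q.coeff d ≠ 0 := by
    rcases le_total p.natDegree q.natDegree with h | h
    · right
      rw [max_eq_right h] at hmax
      rw [← hmax]
      apply leadingCoeff_ne_zero.mpr
      rintro rfl
      rw [natDegree_zero] at hmax
      omega
    · left
      rw [max_eq_left h] at hmax
      rw [← hmax]
      apply leadingCoeff_ne_zero.mpr
      rintro rfl
      rw [natDegree_zero] at hmax
      omega
  have hX : p - X * q ≠ 0 := by
    intro h0
    have h1 : p = X * q := sub_eq_zero.mp h0
    have h2 : IsUnit q := by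
      obtain ⟨a, b, hab⟩ := hco
      rw [h1] at hab
      apply IsUnit.of_mul_eq_one (a * X + b)
      rw [← hab]
      ring
    have h3 := natDegree_eq_zero_of_isUnit h2
    have h4 : p.natDegree ≤ 1 := by
      rw [h1]
      refine natDegree_mul_le.trans ?_
      rw [h3, add_zero]
      exact natDegree_X_le
    rw [h3] at hmax
    omega
  obtain ⟨c, hc⟩ := Infinite.exists_notMem_finset
    ((P.image fun z => z.getD 0) ∪ (p - X * q).roots.toFinset)
  rw [Finset.mem_union, not_or] at hc
  have hcP : some c ∉ P := by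
    intro h
    apply hc.1
    exact Finset.mem_image.mpr ⟨some c, h, rfl⟩
  have hcr : p.eval c - c * q.eval c ≠ 0 := by
    intro h
    apply hc.2
    rw [Multiset.mem_toFinset, mem_roots hX, IsRoot.def, eval_sub, eval_mul, eval_X]
    exact h
  have hpq : (p - C c * q).natDegree ≤ d :=
    (natDegree_sub_le _ _).trans (max_le hp ((natDegree_C_mul_le _ _).trans hq))
  have hq'd : (pc d (p - C c * q) c).natDegree = d := by
    apply le_antisymm (pc_degree _ _ _)
    apply le_natDegree_of_ne_zero
    rw [pc_coeff d _ hpq, eval_sub, eval_mul, eval_C]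
    exact hcr
  have hco' := pc_coprime d (by omega) p q hp hq hco hlead c
  have hinj : Set.InjOn (phc c) (P : Set (Option K)) := by
    intro z hz z' hz' h
    rcases z with _ | x
    · rcases z' with _ | x'
      · rfl
      · exfalso
        have hx' : x' ≠ c := by
          rintro rfl
          exact hcP hz'
        have h1 : (0 : K) = (x' - c)⁻¹ := h
        exact inv_ne_zero (sub_ne_zero.mpr hx') h1.symm
    · rcases z' with _ | x'
      · exfalso
        have hx : x ≠ c := by
          rintro rfl
          exact hcP hz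
        have h1 : (x - c)⁻¹ = (0 : K) := h
        exact inv_ne_zero (sub_ne_zero.mpr hx) h1
      · have h1 : (x - c)⁻¹ = (x' - c)⁻¹ := h
        have h2 := inv_injective h1
        have h3 : x = x' := sub_left_injective h2
        rw [h3]
  have hst : ∀ z ∈ P, (pc d (p - C c * q) c).eval (phc c z) ≠ 0 ∧
      (pc d q c).eval (phc c z) / (pc d (p - C c * q) c).eval (phc c z) =
        phc c (ratP1 p q d z) := by
    intro z hz
    have hFz := hP z hz
    rcases z with _ | x
    · have hval : phc c (none : Option K) = 0 := rfl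
      rw [hval, pc_eval_zero, pc_eval_zero, coeff_sub, coeff_C_mul]
      by_cases hqd : q.coeff d = 0
      · have hpd : p.coeff d ≠ 0 := hlead.resolve_right (fun h => h hqd)
        rw [hqd, mul_zero, sub_zero, zero_div]
        rw [ratP1_none0 p q d hqd] at hFz
        exact ⟨hpd, (congrArg (phc c) (ratP1_none0 p q d hqd)).symm⟩
      · rw [ratP1_none p q d hqd] at hFz
        have h1 : p.coeff d / q.coeff d ≠ c := by
          intro h
          rw [h] at hFz
          exact hcP hFz
        have h2 : p.coeff d - c * q.coeff d ≠ 0 := by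
          intro h
          apply h1
          rw [div_eq_iff hqd]
          exact sub_eq_zero.mp h
        refine ⟨h2, ?_⟩
        rw [ratP1_none p q d hqd]
        symm
        show (p.coeff d / q.coeff d - c)⁻¹ = _
        rw [div_sub' hqd, inv_div, mul_comm (q.coeff d) c]
    · have hxc : x ≠ c := by
        rintro rfl
        exact hcP hz
      have h0 : x - c ≠ 0 := sub_ne_zero.mpr hxc
      have hval : phc c (some x) = (x - c)⁻¹ := rfl
      have e1 := pc_eval_inv d q hq c x hxc
      have e2 := pc_eval_inv d (p - C c * q) hpq c x hxc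
      rw [eval_sub, eval_mul, eval_C] at e2
      rw [hval]
      have hpow : (x - c) ^ d ≠ 0 := pow_ne_zero _ h0
      have hratio : (pc d q c).eval (x - c)⁻¹ / (pc d (p - C c * q) c).eval (x - c)⁻¹ =
          q.eval x / (p.eval x - c * q.eval x) := by
        have h9 : (pc d q c).eval (x - c)⁻¹ / (pc d (p - C c * q) c).eval (x - c)⁻¹ =
            ((x - c) ^ d * (pc d q c).eval (x - c)⁻¹) /
              ((x - c) ^ d * (pc d (p - C c * q) c).eval (x - c)⁻¹) :=
          (mul_div_mul_left _ _ hpow).symm
        rw [h9, e1, e2]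
      rw [hratio]
      have hne' : p.eval x - c * q.eval x ≠ 0 →
          (pc d (p - C c * q) c).eval (x - c)⁻¹ ≠ 0 := by
        intro h h'
        rw [h', mul_zero] at e2
        exact h e2.symm
      by_cases hqx : q.eval x = 0
      · have hpx : p.eval x ≠ 0 := by
          intro hpx
          obtain ⟨a, b, hab⟩ := hco
          have := congrArg (eval x) hab
          rw [eval_add, eval_mul, eval_mul, hpx, hqx, mul_zero, mul_zero, add_zero,
            eval_one] at this
          exact zero_ne_one this
        rw [ratP1_some0 p q d x hqx] at hFz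
        refine ⟨hne' (by rw [hqx, mul_zero, sub_zero]; exact hpx), ?_⟩
        rw [ratP1_some0 p q d x hqx, hqx, zero_div]
        rfl
      · rw [ratP1_some p q d x hqx] at hFz
        have h1 : p.eval x / q.eval x ≠ c := by
          intro h
          rw [h] at hFz
          exact hcP hFz
        have h2 : p.eval x - c * q.eval x ≠ 0 := by
          intro h
          apply h1
          rw [div_eq_iff hqx]
          exact sub_eq_zero.mp h
        refine ⟨hne' h2, ?_⟩
        rw [ratP1_some p q d x hqx]
        symm
        show (p.eval x / q.eval x - c)⁻¹ = _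
        rw [div_sub' hqx, inv_div, mul_comm (q.eval x) c]
  exact ⟨_, _, phc c, pc_degree _ _ _, hq'd, hco', hinj, hst,
    fun h => conj_transfer d p q hp hq c h⟩

/-- the bound for orbits over Galois extensions of the rational function field over an algebraically
closed field of characteristic `c` -/
def OrbB (c : ℕ) : Prop := ∀ n d : ℕ, 2 ≤ d → ∃ B : ℕ,
  ∀ (k E : Type u) [Field k] [IsAlgClosed k] [CharP k c] [Field E] [Algebra k E] (t : E)
    (G : Subgroup (E ≃ₐ[k] E)) [Fintype G], IsGal k t G → Fintype.card G ≤ n →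
    ∀ p q : E[X], p.natDegree ≤ d → q.natDegree = d → IsCoprime p q →
    ∀ P : Finset E, Stab p q P →
    (∃ x₀ ∈ P, ∀ z ∈ P, ∃ i : ℕ, z = (fun y => p.eval y / q.eval y)^[i] x₀) →
    ¬ ConjConst k p q d → P.card ≤ B

/-- **the length of orbits over function fields** -/
theorem orb_len {c : ℕ} (hB : OrbB.{u} c) : ∀ n d : ℕ, 2 ≤ d → ∃ B : ℕ,
    ∀ (k : Type v) (L : Type u) [Field k] [CharP k c] [Field L] [Algebra k L] (t : L),
    Transcendental k t → FiniteDimensional (IntermediateField.adjoin k {t}) L →
    Module.finrank (IntermediateField.adjoin k {t}) L ≤ n → ∀ p q : L[X], IsCoprime p q →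
    max p.natDegree q.natDegree = d → ¬ ConjConst (algebraicClosure k L) p q d →
    ∀ z : Option L, ∀ h : (Set.range fun m : ℕ => (ratP1 p q d)^[m] z).Finite,
      h.toFinset.card ≤ B := by
  classical
  intro n d hd
  obtain ⟨B, hB'⟩ := hB n.factorial d hd
  refine ⟨B + (3 * d + 4), ?_⟩
  intro k L _ _ _ _ t ht hfd hn p q hco hmax hiso z hfin
  have hinfL : Infinite L := ht.infinite
  set P : Finset (Option L) := hfin.toFinset with hPdef
  have hmemP : ∀ i, (ratP1 p q d)^[i] z ∈ P := fun i => by
    rw [hPdef, Set.Finite.mem_toFinset]; exact ⟨i, rfl⟩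
  have hP : ∀ y ∈ P, ratP1 p q d y ∈ P := by
    intro y hy
    rw [hPdef, Set.Finite.mem_toFinset] at hy
    obtain ⟨m, hm⟩ := hy
    simp only at hm
    rw [← hm, ← Function.iterate_succ_apply' (ratP1 p q d)]
    exact hmemP (m + 1)
  by_contra hcon
  push Not at hcon
  apply hiso
  obtain ⟨p', q', φ, hp', hq', hco', hinj, hst', htr⟩ :=
    stable_reduce2 (k := algebraicClosure k L) d hd p q hmax hco P hP
  apply htr
  obtain ⟨k', E, _, _, _, _, j, t', G, _, hgal, hG, ⟨i₀⟩, halg⟩ := extP k L t ht hfd n hn
  have hck : CharP k' c := charP_of_injective_ringHom i₀.injective c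
  have hjinj : Function.Injective j := j.injective
  set P' : Finset L := P.image φ with hP'
  have hcard' : P'.card = P.card := Finset.card_image_of_injOn hinj
  have hstP : Stab p' q' P' := by
    intro y hy
    obtain ⟨z, hz, rfl⟩ := Finset.mem_image.mp hy
    obtain ⟨e1, e2⟩ := hst' z hz
    exact ⟨e1, by rw [e2]; exact Finset.mem_image_of_mem _ (hP z hz)⟩
  have hit : ∀ i, (fun y => (p'.map j).eval y / (q'.map j).eval y)^[i] (j (φ z)) =
      j (φ ((ratP1 p q d)^[i] z)) := by
    intro i
    induction i with
    | zero => rfl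
    | succ i ih =>
      rw [Function.iterate_succ_apply', ih, Function.iterate_succ_apply', eval_map_apply,
        eval_map_apply, ← map_div₀, (hst' _ (hmemP i)).2]
  have hst2 : Stab (p'.map j) (q'.map j) (P'.image j) := by
    intro y hy
    obtain ⟨z, hz, rfl⟩ := Finset.mem_image.mp hy
    obtain ⟨e1, e2⟩ := hstP z hz
    rw [eval_map_apply, eval_map_apply]
    refine ⟨(map_ne_zero j).mpr e1, ?_⟩
    rw [← map_div₀]
    exact Finset.mem_image_of_mem _ e2
  have horb : ∃ x₀ ∈ P'.image j, ∀ y ∈ P'.image j, ∃ i : ℕ,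
      y = (fun y => (p'.map j).eval y / (q'.map j).eval y)^[i] x₀ := by
    refine ⟨j (φ z), Finset.mem_image_of_mem _ (Finset.mem_image_of_mem _ (hmemP 0)), ?_⟩
    intro y hy
    obtain ⟨y', hy', rfl⟩ := Finset.mem_image.mp hy
    obtain ⟨y'', hy'', rfl⟩ := Finset.mem_image.mp hy'
    rw [hPdef, Set.Finite.mem_toFinset] at hy''
    obtain ⟨m, hm⟩ := hy''
    simp only at hm
    exact ⟨m, by rw [hit, hm]⟩
  have hcoj : IsCoprime (p'.map j) (q'.map j) := hco'.map (Polynomial.mapRingHom j)
  have hcc : ConjConst k' (p'.map j) (q'.map j) d := by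
    by_contra hno
    have h2 := hB' k' E t' G hgal hG (p'.map j) (q'.map j)
      (natDegree_map_le.trans hp') (by rw [natDegree_map]; exact hq') hcoj (P'.image j) hst2
      horb hno
    rw [Finset.card_image_of_injective _ hjinj] at h2
    omega
  have hcr := Pool.Agent.Q144.SU.crc k' E d (p'.map j) (q'.map j) hd (natDegree_map_le.trans hp')
    (natDegree_map_le.trans hq'.le) (by
      rw [natDegree_map, natDegree_map, hq']
      exact max_eq_right hp') hcoj hcc (P'.image j) hst2
  refine conj_of_cross p' q' d hp' hq' hd hco' P' hstP P' (Finset.Subset.refl _) ?_ (by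
    rw [Finset.sdiff_self, Finset.card_empty]
    omega)
  intro x0 h0 x1 h1 x2 h2 x hx h01 h02 h12 hx2 hx0
  obtain ⟨c, hc⟩ := hcr (j x0) (Finset.mem_image_of_mem _ h0) (j x1)
    (Finset.mem_image_of_mem _ h1) (j x2) (Finset.mem_image_of_mem _ h2) (j x)
    (Finset.mem_image_of_mem _ hx) (hjinj.ne h01) (hjinj.ne h02) (hjinj.ne h12)
    (hjinj.ne hx2) (hjinj.ne hx0)
  have h3 : IsAlgebraic k (((x - x0) * (x1 - x2)) / ((x - x2) * (x1 - x0))) := by
    apply halg
    refine ⟨c, ?_⟩
    rw [hc, map_div₀, map_mul, map_mul, map_sub, map_sub, map_sub, map_sub]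
  exact ⟨⟨_, h3.isIntegral⟩, rfl⟩

end Pool.Agent.Q103.FS
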