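import Mathlib
import Pool.Agent.Q41.SP.Defs

/-!
# Taylor homomorphisms in characteristic `l`
-/

namespace Pool.Agent.Q103.FS

open Polynomial

universe u

/-- a homomorphism which factors through a surjective one -/
lemma exists_factor {R S T : Type*} [CommRing R] [CommRing S] [CommRing T] (π : R →+* S)
    (hπ : Function.Surjective π) (ψ : R →+* T) (h : ∀ x, π x = 0 → ψ x = 0) :
    ∃ τ : S →+* T, ∀ x, τ (π x) = ψ x := by
  refine ⟨π.liftOfSurjective hπ ⟨ψ, fun x hx => ?_⟩, fun x => ?_⟩
  · exact h x hx
  · exact RingHom.liftOfRightInverse_comp_apply _ _ _ ⟨ψ, fun x hx => h x hx⟩ x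

/-- lifting a finite separable extension to power series: existence -/
theorem exists_tau {R E : Type*} [Field R] [Field E] [Algebra R E] [FiniteDimensional R E]
    [Algebra.IsSeparable R E] (σ : R →+* PowerSeries E)
    (hσ : ∀ r, PowerSeries.constantCoeff (σ r) = algebraMap R E r) :
    ∃ τ : E →+* PowerSeries E, (∀ r, τ (algebraMap R E r) = σ r) ∧
      ∀ x, PowerSeries.constantCoeff (τ x) = x := by
  obtain ⟨α, hα⟩ := Field.exists_primitive_element R E
  have hint : IsIntegral R α := Algebra.IsIntegral.isIntegral α
  set f : (PowerSeries E)[X] := (minpoly R α).map σ with hf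
  have hmonic : f.Monic := (minpoly.monic hint).map σ
  have hcomp : (PowerSeries.constantCoeff (R := E)).comp σ = algebraMap R E := by
    ext r; exact hσ r
  have hev : ∀ (g : R[X]) (y : PowerSeries E),
      PowerSeries.constantCoeff ((g.map σ).eval y) =
        g.eval₂ (algebraMap R E) (PowerSeries.constantCoeff y) := by
    intro g y
    rw [eval_map, hom_eval₂, hcomp]
  have h0 : f.eval (PowerSeries.C α) ∈ Ideal.span {(PowerSeries.X : PowerSeries E)} := by
    rw [Ideal.mem_span_singleton, PowerSeries.X_dvd_iff, hf, hev]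
    have h := minpoly.aeval R α
    rw [aeval_def] at h
    simpa using h
  have h1 : IsUnit (Ideal.Quotient.mk (Ideal.span {(PowerSeries.X : PowerSeries E)})
      (f.derivative.eval (PowerSeries.C α))) := by
    apply IsUnit.map
    rw [PowerSeries.isUnit_iff_constantCoeff, hf, derivative_map, hev]
    have h := (Algebra.IsSeparable.isSeparable R α).aeval_derivative_ne_zero (minpoly.aeval R α)
    rw [aeval_def] at h
    simpa using h
  obtain ⟨y, hy, hyα⟩ := HenselianRing.is_henselian f hmonic (PowerSeries.C α) h0 h1
  have hyc : PowerSeries.constantCoeff y = α := by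
    rw [Ideal.mem_span_singleton, PowerSeries.X_dvd_iff, map_sub, PowerSeries.constantCoeff_C,
      sub_eq_zero] at hyα
    exact hyα
  have hsurj : Function.Surjective (aeval α : R[X] →ₐ[R] E) := by
    intro x
    have hx : x ∈ (IntermediateField.adjoin R {α}).toSubalgebra := by
      rw [hα]; trivial
    rw [IntermediateField.adjoin_simple_toSubalgebra_of_isAlgebraic hint.isAlgebraic,
      Algebra.adjoin_singleton_eq_range_aeval] at hx
    exact hx
  obtain ⟨τ, hτ⟩ := exists_factor ((aeval α : R[X] →ₐ[R] E) : R[X] →+* E) hsurj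
    (eval₂RingHom σ y) (by
      intro g hg
      have hdvd : minpoly R α ∣ g := minpoly.dvd R α (by simpa using hg)
      obtain ⟨g', rfl⟩ := hdvd
      have : (minpoly R α).eval₂ σ y = 0 := by
        have := hy
        rw [IsRoot, hf, eval_map] at this
        exact this
      simp [this])
  refine ⟨τ, fun r => ?_, fun x => ?_⟩
  · have := hτ (C r)
    simpa using this
  · obtain ⟨g, rfl⟩ := hsurj x
    have := hτ g
    simp only [RingHom.coe_coe] at this
    rw [this, coe_eval₂RingHom, ← eval_map, hev, hyc, aeval_def]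

/-- lifting a separable extension to power series: uniqueness -/
theorem tau_unique {R E : Type*} [Field R] [Field E] [Algebra R E]
    [Algebra.IsSeparable R E] (τ₁ τ₂ : E →+* PowerSeries E)
    (h : ∀ r, τ₁ (algebraMap R E r) = τ₂ (algebraMap R E r))
    (hc : ∀ x, PowerSeries.constantCoeff (τ₁ x) = PowerSeries.constantCoeff (τ₂ x)) (x : E) :
    τ₁ x = τ₂ x := by
  set g := minpoly R x with hg
  have hcomp : τ₁.comp (algebraMap R E) = τ₂.comp (algebraMap R E) := by
    ext1 r; exact h r
  have e1 : (g.map (τ₂.comp (algebraMap R E))).eval (τ₁ x) = 0 := by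
    rw [← hcomp, eval_map, ← hom_eval₂, ← aeval_def, hg, minpoly.aeval, map_zero]
  have e2 : (g.map (τ₂.comp (algebraMap R E))).eval (τ₂ x) = 0 := by
    rw [eval_map, ← hom_eval₂, ← aeval_def, hg, minpoly.aeval, map_zero]
  obtain ⟨z, hz⟩ := (g.map (τ₂.comp (algebraMap R E))).binomExpansion (τ₂ x) (τ₁ x - τ₂ x)
  rw [add_sub_cancel, e1, e2, zero_add] at hz
  have hd : (τ₁ x - τ₂ x) * ((g.map (τ₂.comp (algebraMap R E))).derivative.eval (τ₂ x) +
      z * (τ₁ x - τ₂ x)) = 0 := by
    linear_combination -hz
  rcases mul_eq_zero.mp hd with h3 | h3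
  · exact sub_eq_zero.mp h3
  · exfalso
    have h4 := congrArg PowerSeries.constantCoeff h3
    rw [map_add, map_mul, map_sub, hc x, sub_self, mul_zero, add_zero, map_zero, derivative_map,
      eval_map, ← hom_eval₂, ← aeval_def] at h4
    have h5 := (Algebra.IsSeparable.isSeparable R x).aeval_derivative_ne_zero (minpoly.aeval R x)
    rw [← RingHom.comp_apply, map_eq_zero] at h4
    exact h5 h4

/-- the kernel of a derivation on a field `E` which is generated by `t` over the field of the
`l`-th powers -/
theorem ker_der (l : ℕ) {k E : Type*} [Field k] [Field E] [Algebra k E] [Fact l.Prime] [CharP E l]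
    (D : Derivation k E E) (t : E) (ht : D t = 1) (B : Subfield E)
    (hB : ∀ x : E, x ∈ B ↔ ∃ y, x = y ^ l)
    (hgen : ∀ x : E, ∃ g : B[X], x = aeval t g) (x : E) (hx : D x = 0) : ∃ y, x = y ^ l := by
  have hl : l.Prime := Fact.out
  have hDB : ∀ b : B, D (b : E) = 0 := by
    intro b
    obtain ⟨y, hy⟩ := (hB b).mp b.2
    rw [hy, Derivation.leibniz_pow, ← Nat.cast_smul_eq_nsmul E, CharP.cast_eq_zero, zero_smul]
  have hDa : ∀ g : B[X], D (aeval t g) = aeval t (derivative g) := by
    intro g
    induction g using Polynomial.induction_on' with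
    | add p q hp hq => simp only [map_add, hp, hq]
    | monomial n b =>
      rw [aeval_monomial, Derivation.leibniz, Derivation.leibniz_pow, ht, derivative_monomial,
        aeval_monomial]
      have : D (algebraMap B E b) = 0 := hDB b
      rw [this]
      simp only [smul_eq_mul, mul_zero, add_zero, mul_one, nsmul_eq_mul, map_mul, map_natCast]
      ring
  have htl : t ^ l ∈ B := (hB _).mpr ⟨t, rfl⟩
  have hirr : Irreducible (X ^ l - C (⟨t ^ l, htl⟩ : B)) := by
    apply X_pow_sub_C_irreducible_of_prime hl
    intro b hb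
    have h1 : (b : E) ^ l = t ^ l := congrArg Subtype.val hb
    have h2 : (b : E) = t := by
      have h4 : ((b : E) - t) ^ l = 0 := by rw [sub_pow_char, h1, sub_self]
      exact sub_eq_zero.mp ((pow_eq_zero_iff hl.ne_zero).mp h4)
    have h3 := hDB b
    rw [h2, ht] at h3
    exact one_ne_zero h3
  have hmon : (X ^ l - C (⟨t ^ l, htl⟩ : B)).Monic := monic_X_pow_sub_C _ hl.ne_zero
  have hmin : X ^ l - C (⟨t ^ l, htl⟩ : B) = minpoly B t := by
    apply minpoly.eq_of_irreducible_of_monic hirr _ hmon
    simp only [map_sub, map_pow, aeval_X, aeval_C]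
    exact sub_self _
  obtain ⟨g, hg⟩ := hgen x
  set g' := g %ₘ (X ^ l - C (⟨t ^ l, htl⟩ : B)) with hg'
  have hxg : x = aeval t g' := by
    rw [hg, hg', hmin, aeval_modByMonic_eq_self_of_root]
    exact minpoly.aeval _ _
  have hdeg : g'.natDegree < l := by
    have := natDegree_modByMonic_lt g hmon (by
      intro h
      have := congrArg natDegree h
      rw [natDegree_X_pow_sub_C, natDegree_one] at this
      exact hl.ne_zero this)
    rwa [natDegree_X_pow_sub_C] at this
  have hder : derivative g' = 0 := by
    by_contra hne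
    have h1 := minpoly.degree_le_of_ne_zero B t hne (by
      rw [← hDa, ← hxg]; exact hx)
    rw [← hmin, degree_X_pow_sub_C hl.pos] at h1
    have h2 : (derivative g').degree < (l : WithBot ℕ) := by
      refine lt_of_le_of_lt (degree_derivative_le) ?_
      exact lt_of_le_of_lt degree_le_natDegree (by exact_mod_cast hdeg)
    exact absurd h1 (not_le.mpr h2)
  have hC : g' = C (g'.coeff 0) := by
    refine Polynomial.ext fun n => ?_
    rcases n with _ | n
    · simp
    · rw [coeff_C_succ]
      by_cases hn : n + 1 < l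
      · have h1 := congrArg (fun f => f.coeff n) hder
        simp only [coeff_derivative, coeff_zero] at h1
        rcases mul_eq_zero.mp h1 with h | h
        · exact h
        · exfalso
          have h2 : ((n + 1 : ℕ) : E) = 0 := by
            have := congrArg (Subfield.subtype B) h
            simpa using this
          rw [CharP.cast_eq_zero_iff E l] at h2
          exact absurd (Nat.le_of_dvd (Nat.succ_pos n) h2) (not_le.mpr hn)
      · exact coeff_eq_zero_of_natDegree_lt (lt_of_lt_of_le hdeg (not_lt.mp hn))
  rw [hC, aeval_C] at hxg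
  obtain ⟨y, hy⟩ := (hB _).mp (g'.coeff 0).2
  exact ⟨y, hxg.trans hy⟩

end Pool.Agent.Q103.FS
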